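import Mathlib

/-!
# MP_d9a994: finite maximal `p`-subgroups of the kernel (helper15)

`R` residually finite, `N` locally finite normal, `p` a prime for which some maximal `p`-subgroup of `N` is finite: every
nontrivial `p`-element of `R/N` lies outside a subgroup of finite index.
-/

set_option autoImplicit false

namespace Pool.Agent.H15.FI

/-- residually finite: every element other than `1` lies outside a subgroup of finite index -/
def ResFin (G : Type*) [Group G] : Prop := ∀ g : G, g ≠ 1 → ∃ H : Subgroup G, H.FiniteIndex ∧ g ∉ H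

variable {G : Type*} [Group G]

/-- locally finite: finite subsets generate finite subgroups -/
def LocFin (N : Subgroup G) : Prop :=
  ∀ s : Finset G, (↑s : Set G) ⊆ (N : Set G) → Finite (Subgroup.closure (↑s : Set G))

/-- `P` is a maximal `p`-subgroup of `N` -/
def IsMaxP (p : ℕ) (N P : Subgroup G) : Prop :=
  P ≤ N ∧ IsPGroup p P ∧ ∀ P' : Subgroup G, P' ≤ N → IsPGroup p P' → P ≤ P' → P' = P

theorem avoid (h : ResFin G) (s : Finset G) (hs : (1 : G) ∉ s) :
    ∃ K : Subgroup G, K.Normal ∧ K.FiniteIndex ∧ ∀ x ∈ s, x ∉ K := by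
  classical
  induction s using Finset.induction_on with
  | empty => exact ⟨⊤, inferInstance, inferInstance, fun x hx => absurd hx (Finset.notMem_empty x)⟩
  | insert a s _ ih =>
    rw [Finset.mem_insert, not_or] at hs
    obtain ⟨K, hK1, hK2, hK3⟩ := ih hs.2
    obtain ⟨H, hH1, hH2⟩ := h a (fun h1 => hs.1 h1.symm)
    refine ⟨K ⊓ H.normalCore, inferInstance, inferInstance, ?_⟩
    intro x hx
    rw [Finset.mem_insert] at hx
    rw [Subgroup.mem_inf, not_and_or]
    rcases hx with rfl | hx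
    · exact Or.inr fun h1 => hH2 (H.normalCore_le h1)
    · exact Or.inl (hK3 x hx)

theorem LocFin.fin {N : Subgroup G} (h : LocFin N) {x : G} (hx : x ∈ N) : IsOfFinOrder x := by
  have h1 := h {x} (by simpa using hx)
  rw [Finset.coe_singleton, ← Subgroup.zpowers_eq_closure] at h1
  exact finite_zpowers.1 (Set.toFinite _)

/-- no `p`-elements in `K ∩ N` -/
theorem no_p {N K P : Subgroup G} [K.Normal] {p : ℕ} [Fact p.Prime] (hLF : LocFin N) (hP : IsMaxP p N P)
    [Finite P] (hK : ∀ x ∈ P, x ∈ K → x = 1) {x : G} (hx : x ∈ K) (hxN : x ∈ N)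
    (hxp : ∃ k : ℕ, x ^ p ^ k = 1) : x = 1 := by
  classical
  obtain ⟨s, hs⟩ : ∃ s : Finset G, s = insert x (Set.toFinite (P : Set G)).toFinset := ⟨_, rfl⟩
  obtain ⟨F, hF⟩ : ∃ F : Subgroup G, F = Subgroup.closure (↑s : Set G) := ⟨_, rfl⟩
  have hsN : (↑s : Set G) ⊆ (N : Set G) := by
    intro y hy
    rw [hs, Finset.mem_coe, Finset.mem_insert, Set.Finite.mem_toFinset] at hy
    rcases hy with rfl | hy
    · exact hxN
    · exact hP.1 hy
  have hfin : Finite F := by
    rw [hF]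
    exact hLF s hsN
  have hFN : F ≤ N := by
    rw [hF, Subgroup.closure_le]
    exact hsN
  have hxF : x ∈ F := by
    rw [hF]
    exact Subgroup.subset_closure (by rw [hs]; simp)
  have hPF : P ≤ F := by
    intro y hy
    rw [hF]
    exact Subgroup.subset_closure (by rw [hs]; simp [hy])
  -- a Sylow subgroup of F containing P
  have h1 : IsPGroup p (P.subgroupOf F) := hP.2.1.comap_of_injective F.subtype F.subtype_injective
  obtain ⟨S, hS⟩ := h1.exists_le_sylow
  have h2 : (S : Subgroup F).map F.subtype = P := by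
    apply hP.2.2
    · intro y hy
      obtain ⟨z, _, rfl⟩ := hy
      exact hFN z.2
    · exact S.isPGroup'.map F.subtype
    · intro y hy
      exact ⟨⟨y, hPF hy⟩, hS (by rw [Subgroup.mem_subgroupOf]; exact hy), rfl⟩
  -- a Sylow subgroup of F containing x
  obtain ⟨k, hk⟩ := hxp
  have h3 : IsPGroup p (Subgroup.zpowers (⟨x, hxF⟩ : F)) := by
    rw [IsPGroup.iff_orderOf]
    intro y
    obtain ⟨y, hy⟩ := y
    have h4 : y ^ p ^ k = 1 := by
      obtain ⟨i, rfl⟩ := hy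
      have h5 : (⟨x, hxF⟩ : F) ^ p ^ k = 1 := by
        ext
        exact hk
      change ((⟨x, hxF⟩ : F) ^ i) ^ p ^ k = 1
      rw [← zpow_natCast, ← zpow_mul, mul_comm, zpow_mul, zpow_natCast, h5, one_zpow]
    obtain ⟨j, _, hj⟩ := (Nat.dvd_prime_pow (Fact.out : p.Prime)).1 (orderOf_dvd_of_pow_eq_one h4)
    refine ⟨j, ?_⟩
    rw [Subgroup.orderOf_mk]
    exact hj
  obtain ⟨S', hS'⟩ := h3.exists_le_sylow
  obtain ⟨g, hg⟩ := MulAction.exists_smul_eq F S' S
  have h4 : (⟨x, hxF⟩ : F) ∈ (S' : Subgroup F) := hS' (Subgroup.mem_zpowers _)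
  have h5 : g * ⟨x, hxF⟩ * g⁻¹ ∈ (S : Subgroup F) := by
    rw [← hg, Sylow.coe_subgroup_smul]
    have := Subgroup.smul_mem_pointwise_smul (⟨x, hxF⟩ : F) (MulAut.conj g) (S' : Subgroup F) h4
    simpa [MulAut.smul_def, MulAut.conj_apply] using this
  have h6 : (g : G) * x * (g : G)⁻¹ ∈ P := by
    rw [← h2]
    exact ⟨_, h5, rfl⟩
  have h7 : (g : G) * x * (g : G)⁻¹ ∈ K := Subgroup.Normal.conj_mem inferInstance x hx g
  have h8 := hK _ h6 h7
  have h9 : x = (g : G)⁻¹ * ((g : G) * x * (g : G)⁻¹) * g := by group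
  rw [h9, h8]
  group

/-- nontrivial `p`-elements of the quotient are separated -/
theorem sep {Q : Type*} [Group Q] (φ : G →* Q) (hφ : Function.Surjective φ) (hRF : ResFin G)
    (hLF : LocFin φ.ker) {p : ℕ} (hp : p.Prime) {P : Subgroup G} (hP : IsMaxP p φ.ker P) (hPf : Finite P)
    {q : Q} (hq : q ≠ 1) (hqp : ∃ k : ℕ, q ^ p ^ k = 1) : ∃ H : Subgroup Q, H.FiniteIndex ∧ q ∉ H := by
  classical
  have hpf : Fact p.Prime := ⟨hp⟩
  have hmap : ∀ L : Subgroup G, L.FiniteIndex → (L.map φ).FiniteIndex := by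
    intro L hL
    refine ⟨fun h0 => hL.index_ne_zero ?_⟩
    have h1 := L.index_map_dvd hφ
    rw [h0] at h1
    exact zero_dvd_iff.1 h1
  obtain ⟨K, hK1, hK2, hK3⟩ := avoid hRF ((Set.toFinite (P : Set G)).toFinset.erase 1) (by simp)
  have hK4 : ∀ x ∈ P, x ∈ K → x = 1 := by
    intro x hx hxK
    by_contra hx1
    exact hK3 x (by simp [hx, hx1]) hxK
  by_cases hqK : q ∈ K.map φ
  · obtain ⟨r, hrK, hr⟩ := hqK
    obtain ⟨k, hk⟩ := hqp
    have hrf : IsOfFinOrder r := by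
      have h1 : r ^ p ^ k ∈ φ.ker := by
        rw [MonoidHom.mem_ker, map_pow, hr, hk]
      exact (hLF.fin h1).of_pow (pow_ne_zero _ hp.ne_zero)
    have hm : orderOf r ≠ 0 := hrf.orderOf_pos.ne'
    obtain ⟨a, b, hb, hab⟩ := Nat.exists_eq_pow_mul_and_not_dvd hm p hp.ne_one
    have hcop : Nat.Coprime b (p ^ k) := ((Nat.Prime.coprime_iff_not_dvd hp).2 hb).symm.pow_right k
    have hra : (r ^ b) ^ p ^ a = 1 := by
      rw [← pow_mul, mul_comm b, ← hab, pow_orderOf_eq_one]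
    have hqb : q ^ b ≠ 1 := by
      intro h1
      apply hq
      have h2 := Nat.dvd_gcd (orderOf_dvd_of_pow_eq_one h1) (orderOf_dvd_of_pow_eq_one hk)
      rw [hcop.gcd_eq_one] at h2
      exact orderOf_eq_one_iff.1 (Nat.dvd_one.1 h2)
    have hrb : r ^ b ≠ 1 := by
      intro h1
      apply hqb
      rw [← hr, ← map_pow, h1, map_one]
    obtain ⟨L, hL1, hL2, hL3⟩ := avoid hRF {r ^ b} (by simpa using hrb.symm)
    have hL4 : r ^ b ∉ L := hL3 _ (by simp)
    refine ⟨(L ⊓ K).map φ, hmap _ inferInstance, ?_⟩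
    intro hqH
    have h1 : q ^ b ∈ (L ⊓ K).map φ := Subgroup.pow_mem _ hqH b
    obtain ⟨y, hy, hy2⟩ := h1
    have hyL : y ∈ L := hy.1
    have hyK : y ∈ K := hy.2
    obtain ⟨z, hz⟩ : ∃ z, z = y⁻¹ * r ^ b := ⟨_, rfl⟩
    have hzK : z ∈ K := by
      rw [hz]
      exact K.mul_mem (K.inv_mem hyK) (K.pow_mem hrK b)
    have hzN : z ∈ φ.ker := by
      rw [MonoidHom.mem_ker, hz, map_mul, map_inv, hy2, map_pow, hr, inv_mul_cancel]
    have hzf := hLF.fin hzN
    have hzo : orderOf z ≠ 0 := hzf.orderOf_pos.ne'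
    have hzp : ¬ p ∣ orderOf z := by
      intro h1
      obtain ⟨c, hc⟩ := h1
      have hc0 : c ≠ 0 := by
        rintro rfl
        rw [mul_zero] at hc
        exact hzo hc
      have h2 : z ^ c = 1 := by
        refine no_p (K := K) (N := φ.ker) (P := P) (p := p) hLF hP hK4 (K.pow_mem hzK c)
          (φ.ker.pow_mem hzN c) ⟨1, ?_⟩
        rw [pow_one, ← pow_mul, mul_comm c p, ← hc, pow_orderOf_eq_one]
      have h3 := Nat.le_of_dvd (Nat.pos_of_ne_zero hc0) (orderOf_dvd_of_pow_eq_one h2)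
      rw [hc] at h3
      have h4 := hp.two_le
      nlinarith [Nat.pos_of_ne_zero hc0]
    apply hL4
    have e1 : (QuotientGroup.mk (r ^ b) : G ⧸ L) = QuotientGroup.mk z := by
      rw [hz, QuotientGroup.mk_mul, QuotientGroup.mk_inv, (QuotientGroup.eq_one_iff y).2 hyL, inv_one,
        one_mul]
    have e2 : (QuotientGroup.mk (r ^ b) : G ⧸ L) ^ p ^ a = 1 := by
      rw [← QuotientGroup.mk_pow, hra, QuotientGroup.mk_one]
    have e3 : (QuotientGroup.mk (r ^ b) : G ⧸ L) ^ orderOf z = 1 := by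
      rw [e1, ← QuotientGroup.mk_pow, pow_orderOf_eq_one, QuotientGroup.mk_one]
    have hcop2 : Nat.Coprime (orderOf z) (p ^ a) := ((Nat.Prime.coprime_iff_not_dvd hp).2 hzp).symm.pow_right a
    have h2 := Nat.dvd_gcd (orderOf_dvd_of_pow_eq_one e3) (orderOf_dvd_of_pow_eq_one e2)
    rw [hcop2.gcd_eq_one] at h2
    exact (QuotientGroup.eq_one_iff _).1 (orderOf_eq_one_iff.1 (Nat.dvd_one.1 h2))
  · exact ⟨K.map φ, hmap K hK2, hqK⟩

/-- elements of finite order divisible by `p` are separated -/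
theorem sepOrder {Q : Type*} [Group Q] (φ : G →* Q) (hφ : Function.Surjective φ) (hRF : ResFin G)
    (hLF : LocFin φ.ker) {p : ℕ} (hp : p.Prime) {P : Subgroup G} (hP : IsMaxP p φ.ker P) (hPf : Finite P)
    {q : Q} (hq : IsOfFinOrder q) (hpq : p ∣ orderOf q) : ∃ H : Subgroup Q, H.FiniteIndex ∧ q ∉ H := by
  obtain ⟨c, hc⟩ := hpq
  have h0 : orderOf q ≠ 0 := hq.orderOf_pos.ne'
  have hc0 : c ≠ 0 := by
    rintro rfl
    exact h0 (by rw [hc, mul_zero])
  have h1 : q ^ c ≠ 1 := by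
    apply pow_ne_one_of_lt_orderOf hc0
    rw [hc]
    have h2 := hp.two_le
    have h3 := Nat.pos_of_ne_zero hc0
    nlinarith
  obtain ⟨H, hH1, hH2⟩ := sep φ hφ hRF hLF hp hP hPf h1
    ⟨1, by rw [pow_one, ← pow_mul, mul_comm c p, ← hc, pow_orderOf_eq_one]⟩
  exact ⟨H, hH1, fun h => hH2 (H.pow_mem h c)⟩

/-- torsion quotients are residually finite -/
theorem resFin {Q : Type*} [Group Q] (φ : G →* Q) (hφ : Function.Surjective φ) (hRF : ResFin G)
    (hLF : LocFin φ.ker) (hQ : ∀ q : Q, IsOfFinOrder q)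
    (h : ∀ p : ℕ, p.Prime → (∃ q : Q, orderOf q = p) → ∃ P : Subgroup G, IsMaxP p φ.ker P ∧ Finite P) :
    ResFin Q := by
  intro g hg
  have h1 : orderOf g ≠ 1 := fun h2 => hg (orderOf_eq_one_iff.1 h2)
  obtain ⟨p, hp, c, hc⟩ := Nat.exists_prime_and_dvd h1
  have h0 : orderOf g ≠ 0 := (hQ g).orderOf_pos.ne'
  have hc0 : c ≠ 0 := by
    rintro rfl
    exact h0 (by rw [hc, mul_zero])
  have h2 : g ^ c ≠ 1 := by
    apply pow_ne_one_of_lt_orderOf hc0
    rw [hc]
    have h2 := hp.two_le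
    have h3 := Nat.pos_of_ne_zero hc0
    nlinarith
  have hpf : Fact p.Prime := ⟨hp⟩
  have h3 : orderOf (g ^ c) = p := by
    apply orderOf_eq_prime _ h2
    rw [← pow_mul, mul_comm c p, ← hc, pow_orderOf_eq_one]
  obtain ⟨P, hP, hPf⟩ := h p hp ⟨_, h3⟩
  exact sepOrder φ hφ hRF hLF hp hP hPf (hQ g) ⟨c, hc⟩

end Pool.Agent.H15.FI
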