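import Mathlib
import Pool.Agent.H15.FI.A

/-!
# MP_d9a994: kernels in which single elements have normal closures with finite maximal `p`-subgroups (helper15)
-/

set_option autoImplicit false

namespace Pool.Agent.H15.FI

variable {G : Type*} [Group G]

/-- locally embeddable into finite groups -/
def IsLEF (Q : Type*) [Group Q] : Prop :=
  ∀ S : Finset Q, ∃ (F : Type) (_ : Group F) (_ : Finite F) (f : Q → F),
    Set.InjOn f (↑S : Set Q) ∧ ∀ s ∈ S, ∀ t ∈ S, f (s * t) = f s * f t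

/-- `E` has a subgroup of finite index without elements of order `p`, normal in `G` -/
def VP (p : ℕ) (E : Subgroup G) : Prop :=
  ∃ L : Subgroup G, L.Normal ∧ L ≤ E ∧ L.relIndex E ≠ 0 ∧ ∀ y ∈ L, y ^ p = 1 → y = 1

theorem vp_bot (p : ℕ) : VP p (⊥ : Subgroup G) :=
  ⟨⊥, inferInstance, le_rfl, by simp, fun y hy _ => Subgroup.mem_bot.1 hy⟩

theorem vp_of_maxP (hRF : ResFin G) {E P : Subgroup G} (hE : E.Normal) (hLF : LocFin E) {p : ℕ}
    (hp : p.Prime) (hP : IsMaxP p E P) (hPf : Finite P) : VP p E := by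
  classical
  have hpf : Fact p.Prime := ⟨hp⟩
  obtain ⟨K, hK1, hK2, hK3⟩ := avoid hRF ((Set.toFinite (P : Set G)).toFinset.erase 1) (by simp)
  have hK4 : ∀ x ∈ P, x ∈ K → x = 1 := by
    intro x hx hxK
    by_contra hx1
    exact hK3 x (by simp [hx, hx1]) hxK
  refine ⟨K ⊓ E, inferInstance, inf_le_right, ?_, ?_⟩
  · rw [Subgroup.inf_relIndex_right]
    intro h0
    have h1 := K.relIndex_dvd_index_of_normal E
    rw [h0] at h1
    exact hK2.index_ne_zero (zero_dvd_iff.1 h1)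
  · intro y hy hyp
    exact no_p hLF hP hK4 hy.1 hy.2 ⟨1, by simpa using hyp⟩

theorem cop {L : Subgroup G} {p : ℕ} (hp : p.Prime) (hL : ∀ y ∈ L, y ^ p = 1 → y = 1) {y : G} (hy : y ∈ L)
    (hyf : IsOfFinOrder y) : ¬ p ∣ orderOf y := by
  rintro ⟨c, hc⟩
  have h0 : orderOf y ≠ 0 := hyf.orderOf_pos.ne'
  have hc0 : c ≠ 0 := by
    rintro rfl
    exact h0 (by rw [hc, mul_zero])
  have h1 : y ^ c = 1 := by
    apply hL _ (L.pow_mem hy c)
    rw [← pow_mul, mul_comm c p, ← hc, pow_orderOf_eq_one]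
  have h2 := Nat.le_of_dvd (Nat.pos_of_ne_zero hc0) (orderOf_dvd_of_pow_eq_one h1)
  have h3 := hp.two_le
  have h4 := Nat.pos_of_ne_zero hc0
  rw [hc] at h2
  nlinarith

theorem quot {K : Subgroup G} [K.Normal] {p : ℕ} (hp : p.Prime) {z y : G} {k : ℕ} (hz : z ^ p ^ k = 1)
    (hy : ¬ p ∣ orderOf y) (h : (QuotientGroup.mk z : G ⧸ K) = QuotientGroup.mk y) : z ∈ K := by
  have e2 : (QuotientGroup.mk z : G ⧸ K) ^ p ^ k = 1 := by
    rw [← QuotientGroup.mk_pow, hz, QuotientGroup.mk_one]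
  have e3 : (QuotientGroup.mk z : G ⧸ K) ^ orderOf y = 1 := by
    rw [h, ← QuotientGroup.mk_pow, pow_orderOf_eq_one, QuotientGroup.mk_one]
  have hcop2 : Nat.Coprime (orderOf y) (p ^ k) := ((Nat.Prime.coprime_iff_not_dvd hp).2 hy).symm.pow_right k
  have h2 := Nat.dvd_gcd (orderOf_dvd_of_pow_eq_one e3) (orderOf_dvd_of_pow_eq_one e2)
  rw [hcop2.gcd_eq_one] at h2
  exact (QuotientGroup.eq_one_iff _).1 (orderOf_eq_one_iff.1 (Nat.dvd_one.1 h2))

theorem VP.sup {p : ℕ} {E₁ E₂ : Subgroup G} (hE₁ : E₁.Normal) (hE₂ : E₂.Normal)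
    (hT : ∀ g : G, IsOfFinOrder g) (hp : p.Prime) (h₁ : VP p E₁) (h₂ : VP p E₂) : VP p (E₁ ⊔ E₂) := by
  obtain ⟨L₁, n₁, l₁, i₁, f₁⟩ := h₁
  obtain ⟨L₂, n₂, l₂, i₂, f₂⟩ := h₂
  refine ⟨L₁ ⊔ L₂, inferInstance, sup_le_sup l₁ l₂, ?_, ?_⟩
  · have a1 : (L₁ ⊔ L₂).relIndex (E₁ ⊔ L₂) ≠ 0 := by
      have h1 : E₁ ⊔ L₂ = E₁ ⊔ (L₁ ⊔ L₂) := by
        rw [← sup_assoc, sup_eq_left.2 l₁]
      rw [h1, Subgroup.relIndex_sup_right]
      intro h0
      have h2 := Subgroup.relIndex_dvd_of_le_left E₁ (le_sup_left : L₁ ≤ L₁ ⊔ L₂)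
      rw [h0] at h2
      exact i₁ (zero_dvd_iff.1 h2)
    have a2 : (E₁ ⊔ L₂).relIndex (E₁ ⊔ E₂) ≠ 0 := by
      have h1 : E₁ ⊔ E₂ = E₂ ⊔ (E₁ ⊔ L₂) := by
        rw [sup_left_comm, sup_eq_left.2 l₂]
      rw [h1, Subgroup.relIndex_sup_right]
      intro h0
      have h2 := Subgroup.relIndex_dvd_of_le_left E₂ (le_sup_right : L₂ ≤ E₁ ⊔ L₂)
      rw [h0] at h2
      exact i₂ (zero_dvd_iff.1 h2)
    rw [← Subgroup.relIndex_mul_relIndex (L₁ ⊔ L₂) (E₁ ⊔ L₂) (E₁ ⊔ E₂) (sup_le_sup_right l₁ _)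
      (sup_le_sup_left l₂ _)]
    exact mul_ne_zero a1 a2
  · intro y hy hyp
    obtain ⟨a, ha, b, hb, hab⟩ := Subgroup.mem_sup_of_normal_left.1 hy
    apply f₁ y _ hyp
    refine quot (k := 1) hp (by simpa using hyp) (cop hp f₂ hb (hT b)) ?_
    rw [← hab, QuotientGroup.mk_mul, (QuotientGroup.eq_one_iff a).2 ha, one_mul]

/-- the closure of the `p'`-subgroup `L` contains only elements of order prime to `p` -/
theorem clos {L : Subgroup G} [L.Normal] (hRF : ResFin G) (hT : ∀ g : G, IsOfFinOrder g) {p : ℕ} (hp : p.Prime)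
    (hL : ∀ y ∈ L, y ^ p = 1 → y = 1) {y : G} (hy : ∀ K : Subgroup G, K.Normal → K.FiniteIndex → y ∈ L ⊔ K) :
    ¬ p ∣ orderOf y := by
  apply cop (L := Subgroup.zpowers y) hp _ (Subgroup.mem_zpowers y) (hT y)
  intro z hz hzp
  by_contra hz1
  obtain ⟨K, hK1, hK2, hK3⟩ := avoid hRF {z} (by simpa using fun h : (1 : G) = z => hz1 h.symm)
  have hzK : z ∉ K := hK3 z (by simp)
  have h1 : z ∈ L ⊔ K := by
    have h2 : Subgroup.zpowers y ≤ L ⊔ K := by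
      rw [Subgroup.zpowers_le]
      exact hy K hK1 hK2
    exact h2 hz
  obtain ⟨a, ha, b, hb, hab⟩ := Subgroup.mem_sup_of_normal_right.1 h1
  apply hzK
  refine quot (k := 1) hp (by simpa using hzp) (cop hp hL ha (hT a)) ?_
  rw [← hab, QuotientGroup.mk_mul, (QuotientGroup.eq_one_iff b).2 hb, mul_one]

/-- `p`-elements outside of a virtually `p'` normal subgroup lie outside its closure -/
theorem closE {E : Subgroup G} [hE : E.Normal] (hRF : ResFin G) (hT : ∀ g : G, IsOfFinOrder g) {p : ℕ}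
    (hp : p.Prime) (hVP : VP p E) {x : G} {k : ℕ} (hx : x ^ p ^ k = 1) (hxE : x ∉ E) :
    ∃ K : Subgroup G, K.Normal ∧ K.FiniteIndex ∧ x ∉ E ⊔ K := by
  classical
  obtain ⟨L, hL1, hL2, hL3, hL4⟩ := hVP
  have hfin : Finite (E ⧸ L.subgroupOf E) := by
    have h1 : (L.subgroupOf E).FiniteIndex := ⟨hL3⟩
    exact Subgroup.finite_quotient_of_finiteIndex
  have key : ∀ t : E ⧸ L.subgroupOf E, ∃ K : Subgroup G, K.Normal ∧ K.FiniteIndex ∧
      ((t.out : E) : G)⁻¹ * x ∉ L ⊔ K := by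
    intro t
    by_contra hcon
    push Not at hcon
    have h1 := clos hRF hT hp hL4 hcon
    apply hxE
    refine quot (k := k) hp hx h1 ?_
    rw [QuotientGroup.mk_mul, QuotientGroup.mk_inv, (QuotientGroup.eq_one_iff ((t.out : E) : G)).2 t.out.2,
      inv_one, one_mul]
  choose K hK1 hK2 hK3 using key
  refine ⟨⨅ t, K t, Subgroup.normal_iInf_normal hK1, Subgroup.finiteIndex_iInf hK2, ?_⟩
  intro hxK
  have hn : (⨅ t, K t).Normal := Subgroup.normal_iInf_normal hK1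
  obtain ⟨a, ha, b, hb, hab⟩ := Subgroup.mem_sup_of_normal_right.1 hxK
  obtain ⟨t, ht⟩ : ∃ t : E ⧸ L.subgroupOf E, t = QuotientGroup.mk (⟨a, ha⟩ : E) := ⟨_, rfl⟩
  apply hK3 t
  have h1 : ((t.out : E) : G)⁻¹ * a ∈ L := by
    have h2 : (QuotientGroup.mk (t.out : E) : E ⧸ L.subgroupOf E) = QuotientGroup.mk (⟨a, ha⟩ : E) := by
      rw [QuotientGroup.out_eq', ht]
    rw [QuotientGroup.eq, Subgroup.mem_subgroupOf] at h2
    simpa using h2
  have h2 : ((t.out : E) : G)⁻¹ * x = (((t.out : E) : G)⁻¹ * a) * b := by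
    rw [← hab, mul_assoc]
  rw [h2]
  exact Subgroup.mul_mem_sup h1 ((Subgroup.mem_iInf.1 hb) t)

end Pool.Agent.H15.FI
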