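import Mathlib
import Pool.Agent.H15.FI.B

/-!
# MP_d9a994: from locally min-`p` kernels to LEF quotients (helper15)
-/

set_option autoImplicit false

namespace Pool.Agent.H15.FI

variable {G : Type*} [Group G]

theorem torsion_of {Q : Type*} [Group Q] (φ : G →* Q) (hLF : LocFin φ.ker) (hQ : ∀ q : Q, IsOfFinOrder q)
    (g : G) : IsOfFinOrder g := by
  have h1 := hQ (φ g)
  have h0 : orderOf (φ g) ≠ 0 := h1.orderOf_pos.ne'
  refine (hLF.fin (x := g ^ orderOf (φ g)) ?_).of_pow h0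
  rw [MonoidHom.mem_ker, map_pow, pow_orderOf_eq_one]

/-- elements outside of the kernel lie outside the closure of `E` -/
theorem closR {Q : Type*} [Group Q] (φ : G →* Q) (hRF : ResFin G) (hLF : LocFin φ.ker)
    (hQ : ∀ q : Q, IsOfFinOrder q) {E : Subgroup G} (hE : E.Normal) (hEN : E ≤ φ.ker)
    (hVP : ∀ p : ℕ, p.Prime → (∃ q : Q, orderOf q = p) → VP p E) {r : G} (hr : φ r ≠ 1) :
    ∃ K : Subgroup G, K.Normal ∧ K.FiniteIndex ∧ r ∉ E ⊔ K := by
  have hT := torsion_of φ hLF hQ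
  have h1 : orderOf (φ r) ≠ 1 := fun h2 => hr (orderOf_eq_one_iff.1 h2)
  obtain ⟨p, hp, c, hc⟩ := Nat.exists_prime_and_dvd h1
  have hpf : Fact p.Prime := ⟨hp⟩
  have h0 : orderOf (φ r) ≠ 0 := (hQ (φ r)).orderOf_pos.ne'
  have hc0 : c ≠ 0 := by
    rintro rfl
    exact h0 (by rw [hc, mul_zero])
  have h2 : (φ r) ^ c ≠ 1 := by
    apply pow_ne_one_of_lt_orderOf hc0
    rw [hc]
    have h2 := hp.two_le
    have h3 := Nat.pos_of_ne_zero hc0
    nlinarith
  have h3 : orderOf ((φ r) ^ c) = p := by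
    apply orderOf_eq_prime _ h2
    rw [← pow_mul, mul_comm c p, ← hc, pow_orderOf_eq_one]
  have hV := hVP p hp ⟨_, h3⟩
  have hm : orderOf r ≠ 0 := (hT r).orderOf_pos.ne'
  obtain ⟨a, b, hb, hab⟩ := Nat.exists_eq_pow_mul_and_not_dvd hm p hp.ne_one
  have hra : (r ^ b) ^ p ^ a = 1 := by
    rw [← pow_mul, mul_comm b, ← hab, pow_orderOf_eq_one]
  have hrE : r ^ b ∉ E := by
    intro h4
    have h5 : φ (r ^ b) = 1 := hEN h4
    rw [map_pow] at h5
    apply hb
    exact (Dvd.intro c hc.symm).trans (orderOf_dvd_of_pow_eq_one h5)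
  obtain ⟨K, hK1, hK2, hK3⟩ := closE hRF hT hp hV hra hrE
  exact ⟨K, hK1, hK2, fun h => hK3 (Subgroup.pow_mem _ h b)⟩

/-- the hypothesis: normal closures of single elements of the kernel have finite maximal `p`-subgroups for all primes
`p` which are orders of elements of the quotient -/
def LocMinP {Q : Type*} [Group Q] (φ : G →* Q) : Prop :=
  ∀ x ∈ φ.ker, ∀ p : ℕ, p.Prime → (∃ q : Q, orderOf q = p) →
    ∃ P : Subgroup G, IsMaxP p (Subgroup.normalClosure {x}) P ∧ Finite P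

theorem LocFin.mono {N M : Subgroup G} (h : LocFin N) (hM : M ≤ N) : LocFin M :=
  fun s hs => h s (hs.trans hM)

theorem exists_E {Q : Type*} [Group Q] (φ : G →* Q) (hRF : ResFin G) (hLF : LocFin φ.ker)
    (hQ : ∀ q : Q, IsOfFinOrder q) (hφ : LocMinP φ) (T : Finset G) (hT : ∀ x ∈ T, x ∈ φ.ker) :
    ∃ E : Subgroup G, E.Normal ∧ E ≤ φ.ker ∧ (∀ x ∈ T, x ∈ E) ∧
      ∀ p : ℕ, p.Prime → (∃ q : Q, orderOf q = p) → VP p E := by
  classical
  induction T using Finset.induction_on with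
  | empty => exact ⟨⊥, inferInstance, bot_le, fun x hx => absurd hx (Finset.notMem_empty x),
      fun p _ _ => vp_bot p⟩
  | insert a T _ ih =>
    obtain ⟨E, hE1, hE2, hE3, hE4⟩ := ih fun x hx => hT x (Finset.mem_insert_of_mem hx)
    have ha : a ∈ φ.ker := hT a (Finset.mem_insert_self a T)
    have hle : Subgroup.normalClosure {a} ≤ φ.ker :=
      Subgroup.normalClosure_le_normal (by simpa using ha)
    refine ⟨E ⊔ Subgroup.normalClosure {a}, inferInstance, sup_le hE2 hle, ?_, ?_⟩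
    · intro x hx
      rw [Finset.mem_insert] at hx
      rcases hx with rfl | hx
      · exact (le_sup_right : _ ≤ E ⊔ Subgroup.normalClosure {x})
          (Subgroup.subset_normalClosure (Set.mem_singleton x))
      · exact (le_sup_left : E ≤ _) (hE3 x hx)
    · intro p hp hpQ
      obtain ⟨P, hP, hPf⟩ := hφ a ha p hp hpQ
      exact VP.sup hE1 inferInstance (torsion_of φ hLF hQ) hp (hE4 p hp hpQ)
        (vp_of_maxP hRF inferInstance (hLF.mono hle) hp hP hPf)

theorem exists_K {Q : Type*} [Group Q] (φ : G →* Q) (hRF : ResFin G) (hLF : LocFin φ.ker)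
    (hQ : ∀ q : Q, IsOfFinOrder q) {E : Subgroup G} (hE : E.Normal) (hEN : E ≤ φ.ker)
    (hVP : ∀ p : ℕ, p.Prime → (∃ q : Q, orderOf q = p) → VP p E) (T : Finset G) (hT : ∀ x ∈ T, φ x ≠ 1) :
    ∃ K : Subgroup G, K.Normal ∧ K.FiniteIndex ∧ ∀ x ∈ T, x ∉ E ⊔ K := by
  classical
  induction T using Finset.induction_on with
  | empty => exact ⟨⊤, inferInstance, inferInstance, fun x hx => absurd hx (Finset.notMem_empty x)⟩
  | insert a T _ ih =>
    obtain ⟨K, hK1, hK2, hK3⟩ := ih fun x hx => hT x (Finset.mem_insert_of_mem hx)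
    obtain ⟨K', hK1', hK2', hK3'⟩ := closR φ hRF hLF hQ hE hEN hVP (hT a (Finset.mem_insert_self a T))
    refine ⟨K ⊓ K', inferInstance, inferInstance, ?_⟩
    intro x hx
    rw [Finset.mem_insert] at hx
    rcases hx with rfl | hx
    · exact fun h => hK3' (sup_le_sup_left inf_le_right E h)
    · exact fun h => hK3 x hx (sup_le_sup_left inf_le_left E h)

theorem lef_of {G Q : Type} [Group G] [Group Q] (φ : G →* Q) (hs : Function.Surjective φ) (hRF : ResFin G)
    (hLF : LocFin φ.ker) (hQ : ∀ q : Q, IsOfFinOrder q) (hφ : LocMinP φ) : IsLEF Q := by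
  classical
  intro S
  obtain ⟨σ, hσ⟩ : ∃ σ : Q → G, ∀ q, φ (σ q) = q := ⟨fun q => (hs q).choose, fun q => (hs q).choose_spec⟩
  obtain ⟨E, hE1, hE2, hE3, hE4⟩ := exists_E φ hRF hLF hQ hφ
    ((S ×ˢ S).image fun st => (σ (st.1 * st.2))⁻¹ * (σ st.1 * σ st.2)) (by
      intro x hx
      rw [Finset.mem_image] at hx
      obtain ⟨st, _, rfl⟩ := hx
      rw [MonoidHom.mem_ker, map_mul, map_inv, map_mul, hσ, hσ, hσ, inv_mul_cancel])
  obtain ⟨K, hK1, hK2, hK3⟩ := exists_K φ hRF hLF hQ hE1 hE2 hE4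
    (((S ×ˢ S).filter fun st => st.1 ≠ st.2).image fun st => (σ st.1)⁻¹ * σ st.2) (by
      intro x hx
      rw [Finset.mem_image] at hx
      obtain ⟨st, h1, rfl⟩ := hx
      rw [Finset.mem_filter] at h1
      rw [map_mul, map_inv, hσ, hσ]
      exact fun h => h1.2 (inv_mul_eq_one.1 h))
  have hn : (E ⊔ K).Normal := inferInstance
  have hfi : (E ⊔ K).FiniteIndex := Subgroup.finiteIndex_of_le (le_sup_right : K ≤ E ⊔ K)
  refine ⟨G ⧸ (E ⊔ K), inferInstance, Subgroup.finite_quotient_of_finiteIndex,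
    fun q => QuotientGroup.mk (σ q), ?_, ?_⟩
  · intro s hs t ht hst
    by_contra hne
    refine hK3 ((σ s)⁻¹ * σ t) ?_ (QuotientGroup.eq.1 hst)
    rw [Finset.mem_image]
    exact ⟨(s, t), by simpa [hne] using And.intro hs ht, rfl⟩
  · intro s hs t ht
    rw [← QuotientGroup.mk_mul, QuotientGroup.eq]
    apply (le_sup_left : E ≤ E ⊔ K)
    apply hE3
    rw [Finset.mem_image]
    exact ⟨(s, t), by simp [hs, ht], rfl⟩

end Pool.Agent.H15.FI
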