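import Mathlib
import Pool.Agent.H15.FI.C

/-!
# MP_d9a994: countable LEF groups are quotients of residually finite groups by locally normal and finite kernels
(helper15)
-/

set_option autoImplicit false

namespace Pool.Agent.H15.FI

open Filter

theorem lef_conv {Q : Type} [Group Q] (F : ℕ → Type) [∀ k, Group (F k)] [∀ k, Finite (F k)]
    (f : ∀ k, Q → F k) (hmul : ∀ q q', ∀ᶠ k in atTop, f k (q * q') = f k q * f k q')
    (hinj : ∀ q q', q ≠ q' → ∀ᶠ k in atTop, f k q ≠ f k q') :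
    ∃ (G : Type) (_ : Group G) (φ : G →* Q), Function.Surjective φ ∧ ResFin G ∧ LocFin φ.ker ∧
      ∀ x ∈ φ.ker, Finite (Subgroup.normalClosure {x}) := by
  classical
  have hone : ∀ᶠ k in atTop, f k 1 = 1 := by
    filter_upwards [hmul 1 1] with k hk
    rw [mul_one] at hk
    exact left_eq_mul.1 hk
  have hinv : ∀ q, ∀ᶠ k in atTop, f k q⁻¹ = (f k q)⁻¹ := by
    intro q
    filter_upwards [hmul q q⁻¹, hone] with k hk hk1
    rw [mul_inv_cancel, hk1] at hk
    exact (inv_eq_of_mul_eq_one_right hk.symm).symm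
  -- the group
  obtain ⟨G, hG⟩ : ∃ G : Subgroup (∀ k, F k), ∀ x, x ∈ G ↔ ∃ q, ∀ᶠ k in atTop, x k = f k q := by
    refine ⟨{ carrier := {x | ∃ q, ∀ᶠ k in atTop, x k = f k q}, mul_mem' := ?_, one_mem' := ?_,
              inv_mem' := ?_ }, fun x => Iff.rfl⟩
    · rintro x y ⟨q, hq⟩ ⟨q', hq'⟩
      refine ⟨q * q', ?_⟩
      filter_upwards [hq, hq', hmul q q'] with k h1 h2 h3
      rw [Pi.mul_apply, h1, h2, h3]
    · refine ⟨1, ?_⟩
      filter_upwards [hone] with k h1
      rw [Pi.one_apply, h1]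
    · rintro x ⟨q, hq⟩
      refine ⟨q⁻¹, ?_⟩
      filter_upwards [hq, hinv q] with k h1 h2
      rw [Pi.inv_apply, h1, h2]
  have huniq : ∀ (x : ∀ k, F k) (q q' : Q), (∀ᶠ k in atTop, x k = f k q) → (∀ᶠ k in atTop, x k = f k q') →
      q = q' := by
    intro x q q' h1 h2
    by_contra hne
    obtain ⟨k, h3, h4, h5⟩ := (h1.and (h2.and (hinj q q' hne))).exists
    exact h5 (h3.symm.trans h4)
  choose c hc using fun x : G => (hG x.1).1 x.2
  obtain ⟨φ, hφ⟩ : ∃ φ : G →* Q, ∀ x : G, ∀ᶠ k in atTop, x.1 k = f k (φ x) := by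
    refine ⟨{ toFun := c, map_one' := ?_, map_mul' := ?_ }, hc⟩
    · refine huniq 1 _ _ (hc 1) ?_
      filter_upwards [hone] with k h1
      rw [Pi.one_apply, h1]
    · intro x y
      refine huniq (x.1 * y.1) _ _ (hc (x * y)) ?_
      filter_upwards [hc x, hc y, hmul (c x) (c y)] with k h1 h2 h3
      rw [Pi.mul_apply, h1, h2, h3]
  -- the finite normal subgroups
  have hD : ∀ K₀ : ℕ, ∃ D : Subgroup G, D.Normal ∧ Finite D ∧ ∀ x : G, x ∈ D ↔ ∀ k, K₀ ≤ k → x.1 k = 1 := by
    intro K₀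
    obtain ⟨D, hD⟩ : ∃ D : Subgroup G, ∀ x : G, x ∈ D ↔ ∀ k, K₀ ≤ k → x.1 k = 1 := by
      refine ⟨{ carrier := {x : G | ∀ k, K₀ ≤ k → x.1 k = 1}, mul_mem' := ?_, one_mem' := ?_,
                inv_mem' := ?_ }, fun x => Iff.rfl⟩
      · intro x y hx hy k hk
        have h1 := hx k hk
        have h2 := hy k hk
        change x.1 k * y.1 k = 1
        rw [h1, h2, one_mul]
      · intro k _
        rfl
      · intro x hx k hk
        have h1 := hx k hk
        change (x.1 k)⁻¹ = 1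
        rw [h1, inv_one]
    refine ⟨D, ⟨?_⟩, ?_, hD⟩
    · intro x hx g
      rw [hD] at hx ⊢
      intro k hk
      change g.1 k * x.1 k * (g.1 k)⁻¹ = 1
      rw [hx k hk, mul_one, mul_inv_cancel]
    · apply Finite.of_injective (β := ∀ k : Fin K₀, F k) (fun x k => x.1.1 k)
      intro x y hxy
      apply Subtype.ext
      apply Subtype.ext
      funext k
      by_cases hk : k < K₀
      · exact congrFun hxy ⟨k, hk⟩
      · push Not at hk
        rw [(hD x.1).1 x.2 k hk, (hD y.1).1 y.2 k hk]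
  have hker : ∀ x : G, x ∈ φ.ker → ∃ K₀ : ℕ, ∀ k, K₀ ≤ k → x.1 k = 1 := by
    intro x hx
    have h1 : ∀ᶠ k in atTop, x.1 k = 1 := by
      filter_upwards [hφ x, hone] with k h1 h2
      rw [h1, MonoidHom.mem_ker.1 hx, h2]
    exact eventually_atTop.1 h1
  refine ⟨G, inferInstance, φ, ?_, ?_, ?_, ?_⟩
  · intro q
    refine ⟨⟨fun k => f k q, (hG _).2 ⟨q, Eventually.of_forall fun _ => rfl⟩⟩, ?_⟩
    exact huniq _ _ _ (hφ _) (Eventually.of_forall fun _ => rfl)
  · intro g hg
    have h1 : ∃ k, g.1 k ≠ 1 := by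
      by_contra hcon
      push Not at hcon
      exact hg (Subtype.ext (funext hcon))
    obtain ⟨k, hk⟩ := h1
    refine ⟨((Pi.evalMonoidHom F k).comp G.subtype).ker, inferInstance, ?_⟩
    intro h2
    exact hk h2
  · intro s hs
    have h1 : ∃ K₀ : ℕ, ∀ x ∈ s, ∀ k, K₀ ≤ k → x.1 k = 1 := by
      choose! K hK using hker
      refine ⟨s.sup K, ?_⟩
      intro x hx k hk
      exact hK x (hs hx) k ((Finset.le_sup hx).trans hk)
    obtain ⟨K₀, hK₀⟩ := h1
    obtain ⟨D, _, hD2, hD3⟩ := hD K₀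
    have h2 : Subgroup.closure (↑s : Set G) ≤ D := by
      rw [Subgroup.closure_le]
      intro x hx
      exact (hD3 x).2 (hK₀ x hx)
    exact Finite.of_injective (Subgroup.inclusion h2) (Subgroup.inclusion_injective h2)
  · intro x hx
    obtain ⟨K₀, hK₀⟩ := hker x hx
    obtain ⟨D, hD1, hD2, hD3⟩ := hD K₀
    have h2 : Subgroup.normalClosure {x} ≤ D := by
      apply Subgroup.normalClosure_le_normal
      rw [Set.singleton_subset_iff]
      exact (hD3 x).2 hK₀
    exact Finite.of_injective (Subgroup.inclusion h2) (Subgroup.inclusion_injective h2)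

theorem of_lef {Q : Type} [Group Q] [Countable Q] (h : IsLEF Q) :
    ∃ (G : Type) (_ : Group G) (φ : G →* Q), Function.Surjective φ ∧ ResFin G ∧ LocFin φ.ker ∧
      ∀ x ∈ φ.ker, Finite (Subgroup.normalClosure {x}) := by
  classical
  obtain ⟨e, he⟩ := exists_surjective_nat Q
  choose F hF1 hF2 f hf1 hf2 using fun k : ℕ => h ((Finset.range (k + 1)).image e)
  have hmem : ∀ q : Q, ∀ᶠ k in atTop, q ∈ (Finset.range (k + 1)).image e := by
    intro q
    obtain ⟨n, rfl⟩ := he q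
    filter_upwards [eventually_ge_atTop n] with k hk
    exact Finset.mem_image_of_mem e (Finset.mem_range.2 (by omega))
  refine lef_conv F f ?_ ?_
  · intro q q'
    filter_upwards [hmem q, hmem q'] with k h1 h2
    exact hf2 k q h1 q' h2
  · intro q q' hne
    filter_upwards [hmem q, hmem q'] with k h1 h2
    intro h3
    exact hne (hf1 k (Finset.mem_coe.2 h1) (Finset.mem_coe.2 h2) h3)

theorem maxP_of_finite {G : Type*} [Group G] {p : ℕ} {E : Subgroup G} (hE : Finite E) :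
    ∃ P : Subgroup G, IsMaxP p E P ∧ Finite P := by
  obtain ⟨S⟩ : Nonempty (Sylow p E) := inferInstance
  refine ⟨(S : Subgroup E).map E.subtype, ⟨?_, S.isPGroup'.map E.subtype, ?_⟩, ?_⟩
  · intro y hy
    obtain ⟨z, _, rfl⟩ := hy
    exact z.2
  · intro P' h1 h2 h3
    have h4 : P'.subgroupOf E = (S : Subgroup E) := by
      apply S.3 (h2.comap_of_injective E.subtype E.subtype_injective)
      intro z hz
      exact h3 ⟨z, hz, rfl⟩
    apply le_antisymm _ h3
    intro y hy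
    refine ⟨⟨y, h1 hy⟩, ?_, rfl⟩
    change (⟨y, h1 hy⟩ : E) ∈ (S : Subgroup E)
    rw [← h4, Subgroup.mem_subgroupOf]
    exact hy
  · exact Finite.of_surjective (fun z : (S : Subgroup E) => (⟨z.1.1, ⟨z.1, z.2, rfl⟩⟩ :
      (S : Subgroup E).map E.subtype)) (by
        rintro ⟨y, z, hz, rfl⟩
        exact ⟨⟨z, hz⟩, rfl⟩)

end Pool.Agent.H15.FI
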