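import Mathlib
import Pool.Agent.H15.FI.C

/-!
# MP_d9a994, Theorem M: definitions (helper15)
-/

set_option autoImplicit false

namespace Pool.Agent.H15.FI

/-- the `p`-subgroups of `B` have bounded order -/
def BP {G : Type*} [Group G] (p : ℕ) (B : Subgroup G) : Prop :=
  ∃ m : ℕ, ∀ X : Subgroup G, X ≤ B → Finite X → IsPGroup p X → Nat.card X ≤ m

/-- `B` is locally nilpotent -/
def LNil {G : Type*} [Group G] (B : Subgroup G) : Prop :=
  ∀ s : Finset G, (↑s : Set G) ⊆ (B : Set G) → Group.IsNilpotent (Subgroup.closure (↑s : Set G))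

/-- residually nilpotent -/
def ResNil (R : Type*) [Group R] : Prop :=
  ∀ y : R, y ≠ 1 → ∃ (K : Subgroup R) (_ : K.Normal), Group.IsNilpotent (R ⧸ K) ∧ y ∉ K

/-- profinite closure -/
def cl {G : Type*} [Group G] (E : Subgroup G) : Subgroup G :=
  ⨅ K : {K : Subgroup G // K.Normal ∧ K.FiniteIndex}, E ⊔ K.1

theorem mem_cl {G : Type*} [Group G] {E : Subgroup G} {x : G} :
    x ∈ cl E ↔ ∀ K : Subgroup G, K.Normal → K.FiniteIndex → x ∈ E ⊔ K := by
  rw [cl, Subgroup.mem_iInf]
  exact ⟨fun h K h1 h2 => h ⟨K, h1, h2⟩, fun h K => h K.1 K.2.1 K.2.2⟩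

universe u

/-- the allowed layers of a tower: nilpotent groups; groups without elements of order `p` for the primes `p` in `π`;
subdirect products of linear groups of degree `d` over fields -/
def Layer (π : Set ℕ) (d : ℕ) (Z : Type u) [Group Z] : Prop :=
  Group.IsNilpotent Z ∨ (∀ p ∈ π, p.Prime → ∀ z : Z, z ^ p = 1 → z = 1) ∨
    ∀ z : Z, z ≠ 1 → ∃ (F : Type u) (_ : Field F) (f : Z →* GL (Fin d) F), f z ≠ 1

/-- groups with a subnormal series of length `h` whose factors are allowed layers -/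
def Tow (π : Set ℕ) (d : ℕ) : ℕ → (X : Type u) → [Group X] → Prop
  | 0, X, _ => Subsingleton X
  | h + 1, X, _ => ∃ (Y : Subgroup X) (_ : Y.Normal), Layer π d (X ⧸ Y) ∧ Tow π d h Y

/-- residually in the class of groups with a series of length `h` as above -/
def ResTow (π : Set ℕ) (d h : ℕ) (R : Type u) [Group R] : Prop :=
  ∀ y : R, y ≠ 1 → ∃ (X : Type u) (_ : Group X) (f : R →* X), Tow π d h X ∧ f y ≠ 1

end Pool.Agent.H15.FI
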