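import Mathlib
import Pool.Agent.H15.FI.M0

/-!
# MP_d9a994, Theorem M: bounded `p`-subgroups
-/

set_option autoImplicit false

namespace Pool.Agent.H15.FI

theorem lift_finset {G G' : Type*} [Group G] [Group G'] (θ : G →* G') {B : Subgroup G} (s : Finset G')
    (hs : (↑s : Set G') ⊆ (B.map θ : Set G')) :
    ∃ t : Finset G, (↑t : Set G) ⊆ (B : Set G) ∧ (Subgroup.closure (↑t : Set G)).map θ =
      Subgroup.closure (↑s : Set G') := by
  classical
  have h1 : ∀ y : G', ∃ x : G, y ∈ s → x ∈ B ∧ θ x = y := by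
    intro y
    by_cases hy : y ∈ s
    · obtain ⟨x, hx, hxy⟩ := hs hy
      exact ⟨x, fun _ => ⟨hx, hxy⟩⟩
    · exact ⟨1, fun h => absurd h hy⟩
  choose c hc using h1
  refine ⟨s.image c, ?_, ?_⟩
  · intro x hx
    rw [Finset.mem_coe, Finset.mem_image] at hx
    obtain ⟨y, hy, rfl⟩ := hx
    exact (hc y hy).1
  · rw [MonoidHom.map_closure]
    congr 1
    ext y
    constructor
    · rintro ⟨x, hx, rfl⟩
      rw [Finset.mem_coe, Finset.mem_image] at hx
      obtain ⟨y, hy, rfl⟩ := hx
      rw [(hc y hy).2]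
      exact hy
    · intro hy
      exact ⟨c y, by simpa using ⟨y, hy, rfl⟩, (hc y hy).2⟩

theorem finite_map {G G' : Type*} [Group G] [Group G'] (f : G →* G') (K : Subgroup G) [Finite K] :
    Finite (K.map f) :=
  Finite.of_surjective (fun z : K => (⟨f z.1, ⟨z.1, z.2, rfl⟩⟩ : K.map f)) (by
    rintro ⟨y, z, hz, rfl⟩
    exact ⟨⟨z, hz⟩, rfl⟩)

theorem card_le_sylow {F : Type*} [Group F] [Finite F] {p : ℕ} [Fact p.Prime] (S : Sylow p F)
    {X : Subgroup F} (hX : IsPGroup p X) : Nat.card X ≤ Nat.card S := by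
  obtain ⟨S', hS'⟩ := hX.exists_le_sylow
  refine (Nat.card_le_card_of_injective _ (Subgroup.inclusion_injective hS')).trans ?_
  rw [S.card_eq_multiplicity, ← S'.card_eq_multiplicity]

theorem BP.of_maxP {G : Type*} [Group G] {p : ℕ} (hp : p.Prime) {B P : Subgroup G} (hB : LocFin B)
    (hP : IsMaxP p B P) (hPf : Finite P) : BP p B := by
  classical
  have hpf : Fact p.Prime := ⟨hp⟩
  refine ⟨Nat.card P, ?_⟩
  intro X hXB hXf hX
  obtain ⟨s, hs⟩ : ∃ s : Finset G, s = (Set.toFinite (X : Set G)).toFinset ∪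
    (Set.toFinite (P : Set G)).toFinset := ⟨_, rfl⟩
  obtain ⟨F, hF⟩ : ∃ F : Subgroup G, F = Subgroup.closure (↑s : Set G) := ⟨_, rfl⟩
  have hsN : (↑s : Set G) ⊆ (B : Set G) := by
    intro y hy
    rw [hs, Finset.mem_coe, Finset.mem_union, Set.Finite.mem_toFinset, Set.Finite.mem_toFinset] at hy
    rcases hy with hy | hy
    · exact hXB hy
    · exact hP.1 hy
  have hfin : Finite F := by
    rw [hF]
    exact hB s hsN
  have hFB : F ≤ B := by
    rw [hF, Subgroup.closure_le]
    exact hsN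
  have hXF : X ≤ F := by
    intro y hy
    rw [hF]
    exact Subgroup.subset_closure (by rw [hs]; simp [hy])
  have hPF : P ≤ F := by
    intro y hy
    rw [hF]
    exact Subgroup.subset_closure (by rw [hs]; simp [hy])
  have h1 : IsPGroup p (P.subgroupOf F) := hP.2.1.comap_of_injective F.subtype F.subtype_injective
  obtain ⟨S, hS⟩ := h1.exists_le_sylow
  have h2 : (S : Subgroup F).map F.subtype = P := by
    apply hP.2.2
    · intro y hy
      obtain ⟨z, _, rfl⟩ := hy
      exact hFB z.2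
    · exact S.isPGroup'.map F.subtype
    · intro y hy
      exact ⟨⟨y, hPF hy⟩, hS (by rw [Subgroup.mem_subgroupOf]; exact hy), rfl⟩
  have h3 : IsPGroup p (X.subgroupOf F) := hX.comap_of_injective F.subtype F.subtype_injective
  have h4 := card_le_sylow S h3
  have h5 : Nat.card (X.subgroupOf F) = Nat.card X :=
    Nat.card_congr (Subgroup.subgroupOfEquivOfLe hXF).toEquiv
  have h6 : Nat.card S ≤ Nat.card P := by
    refine Nat.card_le_card_of_injective
      (fun z : (S : Subgroup F) => (⟨z.1.1, by rw [← h2]; exact ⟨z.1, z.2, rfl⟩⟩ : P)) ?_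
    intro a b hab
    have h7 := congrArg Subtype.val hab
    exact Subtype.ext (Subtype.ext h7)
  rw [h5] at h4
  exact h4.trans h6

theorem BP.exists_maxP {G : Type*} [Group G] {p : ℕ} (hp : p.Prime) {B : Subgroup G} (hB : LocFin B)
    (h : BP p B) : ∃ P : Subgroup G, IsMaxP p B P ∧ Finite P := by
  classical
  have hpf : Fact p.Prime := ⟨hp⟩
  obtain ⟨m, hm⟩ := h
  obtain ⟨A, hA⟩ : ∃ A : Set ℕ, A = {n | ∃ X : Subgroup G, X ≤ B ∧ Finite X ∧ IsPGroup p X ∧
    Nat.card X = n} := ⟨_, rfl⟩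
  have hAfin : A.Finite := by
    apply (Set.finite_Iic m).subset
    rw [hA]
    rintro n ⟨X, h1, h2, h3, rfl⟩
    exact hm X h1 h2 h3
  have hAne : A.Nonempty := by
    rw [hA]
    exact ⟨_, ⊥, bot_le, inferInstance, IsPGroup.of_bot, rfl⟩
  obtain ⟨n, hn, hmax⟩ := Set.exists_max_image A id hAfin hAne
  rw [hA] at hn
  obtain ⟨X, h1, h2, h3, h4⟩ := hn
  refine ⟨X, ⟨h1, h3, ?_⟩, h2⟩
  intro P' hP'B hP' hXP'
  apply le_antisymm _ hXP'
  intro y hy
  obtain ⟨s, hs⟩ : ∃ s : Finset G, s = insert y (Set.toFinite (X : Set G)).toFinset := ⟨_, rfl⟩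
  have hsP' : Subgroup.closure (↑s : Set G) ≤ P' := by
    rw [Subgroup.closure_le]
    intro z hz
    rw [hs, Finset.mem_coe, Finset.mem_insert, Set.Finite.mem_toFinset] at hz
    rcases hz with rfl | hz
    · exact hy
    · exact hXP' hz
  have hf : Finite (Subgroup.closure (↑s : Set G)) :=
    hB s (Subgroup.subset_closure.trans (hsP'.trans hP'B))
  have hXF : X ≤ Subgroup.closure (↑s : Set G) := by
    intro z hz
    exact Subgroup.subset_closure (by rw [hs]; simp [hz])
  have h5 : Nat.card (Subgroup.closure (↑s : Set G)) ∈ A := by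
    rw [hA]
    exact ⟨_, hsP'.trans hP'B, hf, hP'.to_le hsP', rfl⟩
  have h6 := hmax _ h5
  have h7 : X = Subgroup.closure (↑s : Set G) := by
    apply Subgroup.eq_of_le_of_card_ge hXF
    rw [h4]
    exact h6
  rw [h7]
  exact Subgroup.subset_closure (by rw [hs]; simp)

theorem BP.map {G G' : Type*} [Group G] [Group G'] (θ : G →* G') {p : ℕ} (hp : p.Prime) {B : Subgroup G}
    (hB : LocFin B) (h : BP p B) : BP p (B.map θ) := by
  classical
  have hpf : Fact p.Prime := ⟨hp⟩
  obtain ⟨m, hm⟩ := h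
  refine ⟨m, ?_⟩
  intro X hXB hXf hX
  obtain ⟨t, ht, hts⟩ := lift_finset θ (B := B) (Set.toFinite (X : Set G')).toFinset (by
    intro y hy
    exact hXB (by simpa using hy))
  have hcl : Subgroup.closure (↑(Set.toFinite (X : Set G')).toFinset : Set G') = X := by simp
  rw [hcl] at hts
  have hf : Finite (Subgroup.closure (↑t : Set G)) := hB t ht
  have hFB : Subgroup.closure (↑t : Set G) ≤ B := by
    rw [Subgroup.closure_le]
    exact ht
  obtain ⟨S⟩ : Nonempty (Sylow p (Subgroup.closure (↑t : Set G))) := inferInstance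
  have h1 : Nat.card X ∣ Nat.card (Subgroup.closure (↑t : Set G)) := by
    rw [← hts]
    exact Subgroup.card_map_dvd _ _
  have h2 : Nat.card X ≤ Nat.card S := by
    obtain ⟨a, ha⟩ := IsPGroup.iff_card.1 hX
    rw [S.card_eq_multiplicity, ha]
    rw [ha] at h1
    apply Nat.pow_le_pow_right hp.pos
    exact (hp.pow_dvd_iff_le_factorization Nat.card_pos.ne').1 h1
  have hfm := finite_map (Subgroup.closure (↑t : Set G)).subtype (S : Subgroup (Subgroup.closure (↑t : Set G)))
  have h3 := hm ((S : Subgroup (Subgroup.closure (↑t : Set G))).map (Subgroup.closure (↑t : Set G)).subtype) (by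
    rintro y ⟨z, _, rfl⟩
    exact hFB z.2) hfm (S.isPGroup'.map _)
  have h4 : Nat.card S ≤ Nat.card ((S : Subgroup (Subgroup.closure (↑t : Set G))).map
      (Subgroup.closure (↑t : Set G)).subtype) := by
    refine Nat.card_le_card_of_injective (fun z => ⟨z.1.1, z.1, z.2, rfl⟩) ?_
    intro a b hab
    have h7 := congrArg Subtype.val hab
    exact Subtype.ext (Subtype.ext h7)
  exact h2.trans (h4.trans h3)

end Pool.Agent.H15.FI
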