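import Mathlib
import Pool.Agent.H15.FI.M2

/-!
# MP_d9a994, Theorem M: the induction (helper15)
-/

set_option autoImplicit false

namespace Pool.Agent.H15.FI

/-- a factor is good: locally nilpotent, or with bounded `p`-subgroups for the primes in `π` -/
def Good (π : Set ℕ) {G : Type*} [Group G] (B : Subgroup G) : Prop :=
  LNil B ∨ ∀ p ∈ π, p.Prime → BP p B

theorem LocFin.map {G G' : Type*} [Group G] [Group G'] (θ : G →* G') {B : Subgroup G} (h : LocFin B) :
    LocFin (B.map θ) := by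
  intro s hs
  obtain ⟨t, ht, hts⟩ := lift_finset θ s hs
  have h1 := h t ht
  rw [← hts]
  exact Finite.of_surjective (fun z : Subgroup.closure (↑t : Set G) => (⟨θ z.1, ⟨z.1, z.2, rfl⟩⟩ :
    (Subgroup.closure (↑t : Set G)).map θ)) (by
      rintro ⟨y, z, hz, rfl⟩
      exact ⟨⟨z, hz⟩, rfl⟩)

theorem LNil.map {G G' : Type*} [Group G] [Group G'] (θ : G →* G') {B : Subgroup G} (h : LNil B) :
    LNil (B.map θ) := by
  intro s hs
  obtain ⟨t, ht, hts⟩ := lift_finset θ s hs
  obtain ⟨n, hn⟩ := (Subgroup.isNilpotent_iff_lowerCentralSeries _).1 (h t ht)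
  rw [← hts, Subgroup.isNilpotent_iff_lowerCentralSeries]
  exact ⟨n, by rw [← Subgroup.map_lowerCentralSeries, hn, Subgroup.map_bot]⟩

theorem Good.map {π : Set ℕ} {G G' : Type*} [Group G] [Group G'] (θ : G →* G') {B : Subgroup G}
    (hB : LocFin B) (h : Good π B) : Good π (B.map θ) := by
  rcases h with h | h
  · exact Or.inl (h.map θ)
  · exact Or.inr fun p hp hpp => (h p hp hpp).map θ hpp hB

instance cl_normal {G : Type*} [Group G] (E : Subgroup G) [E.Normal] : (cl E).Normal := by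
  apply Subgroup.normal_iInf_normal
  rintro ⟨K, hK1, hK2⟩
  have : K.Normal := hK1
  change (E ⊔ K).Normal
  infer_instance

theorem le_cl {G : Type*} [Group G] (E : Subgroup G) : E ≤ cl E :=
  fun _ hx => mem_cl.2 fun K _ _ => (le_sup_left : E ≤ E ⊔ K) hx

theorem resFin_quot {G : Type*} [Group G] (E : Subgroup G) [E.Normal] : ResFin (G ⧸ cl E) := by
  intro g hg
  obtain ⟨x, rfl⟩ := QuotientGroup.mk_surjective g
  have h1 : x ∉ cl E := fun h => hg ((QuotientGroup.eq_one_iff x).2 h)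
  rw [mem_cl] at h1
  push Not at h1
  obtain ⟨K, hK1, hK2, hK3⟩ := h1
  refine ⟨(E ⊔ K).map (QuotientGroup.mk' (cl E)), ⟨fun h0 => ?_⟩, ?_⟩
  · have h2 := (E ⊔ K).index_map_dvd (QuotientGroup.mk'_surjective (cl E))
    rw [h0] at h2
    have h3 : (E ⊔ K).FiniteIndex := Subgroup.finiteIndex_of_le (le_sup_right : K ≤ E ⊔ K)
    exact h3.index_ne_zero (zero_dvd_iff.1 h2)
  · rintro ⟨y, hy, hyx⟩
    apply hK3
    have h2 : y⁻¹ * x ∈ cl E := QuotientGroup.eq.1 hyx
    have h3 : y⁻¹ * x ∈ E ⊔ K := mem_cl.1 h2 K hK1 hK2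
    have h4 := (E ⊔ K).mul_mem hy h3
    rwa [mul_inv_cancel_left] at h4

theorem LocFin.comap {G G' : Type*} [Group G] [Group G'] (ι : G' →* G) (hι : Function.Injective ι)
    {B : Subgroup G} (h : LocFin B) : LocFin (B.comap ι) := by
  classical
  intro s hs
  have h1 := h (s.image ι) (by
    intro x hx
    rw [Finset.mem_coe, Finset.mem_image] at hx
    obtain ⟨y, hy, rfl⟩ := hx
    exact hs hy)
  have h2 : ∀ z ∈ Subgroup.closure (↑s : Set G'), ι z ∈ Subgroup.closure (↑(s.image ι) : Set G) := by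
    intro z hz
    have h3 : ι z ∈ (Subgroup.closure (↑s : Set G')).map ι := ⟨z, hz, rfl⟩
    rwa [MonoidHom.map_closure, ← Finset.coe_image] at h3
  exact Finite.of_injective (fun z : Subgroup.closure (↑s : Set G') =>
    (⟨ι z.1, h2 z.1 z.2⟩ : Subgroup.closure (↑(s.image ι) : Set G))) (by
      intro x y hxy
      exact Subtype.ext (hι (congrArg Subtype.val hxy)))

theorem lcs_mono {G : Type*} [Group G] {S T : Subgroup G} (h : S ≤ T) (n : ℕ) :
    S.lowerCentralSeries n ≤ T.lowerCentralSeries n := by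
  induction n with
  | zero => exact h
  | succ n ih =>
    rw [Subgroup.lowerCentralSeries_succ, Subgroup.lowerCentralSeries_succ]
    exact Subgroup.commutator_mono ih h

theorem LNil.nil {G : Type*} [Group G] {B : Subgroup G} (h : LNil B) (hB : Finite B) : Group.IsNilpotent B := by
  have h1 := h (Set.toFinite (B : Set G)).toFinset (by simp)
  have h2 : Subgroup.closure (↑(Set.toFinite (B : Set G)).toFinset : Set G) = B := by simp
  rwa [h2] at h1

/-- the closure of a locally nilpotent normal subgroup is residually nilpotent -/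
theorem resNil_cl {G : Type*} [Group G] (hRF : ResFin G) {E : Subgroup G} (hE : LNil E) :
    ResNil (cl E) := by
  intro y hy
  obtain ⟨K, hK1, hK2, hK3⟩ := avoid hRF {y.1} (by
    simpa using fun h : (1 : G) = y.1 => hy (Subtype.ext h.symm))
  have hyK : y.1 ∉ K := hK3 _ (by simp)
  obtain ⟨f, hf⟩ : ∃ f : cl E →* G ⧸ K, f = (QuotientGroup.mk' K).comp (cl E).subtype := ⟨_, rfl⟩
  have hfin : Finite (G ⧸ K) := Subgroup.finite_quotient_of_finiteIndex
  have hn : Group.IsNilpotent (E.map (QuotientGroup.mk' K)) := (hE.map _).nil inferInstance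
  obtain ⟨n, hn⟩ := (Subgroup.isNilpotent_iff_lowerCentralSeries _).1 hn
  have hr : f.range ≤ E.map (QuotientGroup.mk' K) := by
    rintro z ⟨x, rfl⟩
    have h1 : x.1 ∈ E ⊔ K := mem_cl.1 x.2 K hK1 hK2
    obtain ⟨a, ha, b, hb, hab⟩ := Subgroup.mem_sup_of_normal_right.1 h1
    refine ⟨a, ha, ?_⟩
    rw [hf]
    change (QuotientGroup.mk a : G ⧸ K) = QuotientGroup.mk x.1
    rw [← hab, QuotientGroup.mk_mul, (QuotientGroup.eq_one_iff b).2 hb, mul_one]
  refine ⟨f.ker, inferInstance, ?_, ?_⟩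
  · rw [Subgroup.nilpotent_iff_lowerCentralSeries]
    refine ⟨n, ?_⟩
    have hinj := QuotientGroup.kerLift_injective f
    rw [← Subgroup.map_eq_bot_iff_of_injective _ hinj, Subgroup.map_lowerCentralSeries, eq_bot_iff, ← hn]
    apply lcs_mono
    refine le_trans ?_ hr
    rintro z ⟨x, _, rfl⟩
    obtain ⟨x, rfl⟩ := QuotientGroup.mk_surjective x
    exact ⟨x, rfl⟩
  · intro h1
    rw [MonoidHom.mem_ker, hf] at h1
    exact hyK ((QuotientGroup.eq_one_iff y.1).1 h1)

end Pool.Agent.H15.FI
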