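import Mathlib
import Pool.Agent.H15.FI.M3
import Pool.Agent.H89.BC.Main

/-!
# MP_d9a994, Theorem M: one factor (helper15)
-/

set_option autoImplicit false

namespace Pool.Agent.H15.FI

open Pool.Agent.H89.BC (Tame)

universe u v w

/-- the finite quotients of `G` in which the image of `E` is tame separate the elements of `G` -/
def RT (Q : Type v) [Group Q] (d : ℕ) (F : ℕ → ℕ) (h : ℕ) {G : Type u} [Group G] (E : Subgroup G) : Prop :=
  ∀ y : G, y ≠ 1 → ∃ (K' : Subgroup G) (_ : K'.Normal), K'.FiniteIndex ∧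
    y ∉ K' ∧ Tame Q d F h (E.map (QuotientGroup.mk' K'))

theorem tame_mono {Q : Type v} {Q' : Type w} [Group Q] [Group Q'] (hd : ∀ q' : Q', ∃ q : Q, orderOf q' ∣ orderOf q)
    (d : ℕ) (F : ℕ → ℕ) (h : ℕ) : ∀ (X : Type u) [Group X], Tame Q d F h X → Tame Q' d F h X := by
  induction h with
  | zero =>
    intro X _ hX
    exact hX
  | succ h ih =>
    intro X _ hX
    obtain ⟨M, hM, h1, h2⟩ := hX
    refine ⟨M, hM, ?_, ih M h2⟩
    rcases h1 with h1 | h1 | h1 | h1
    · exact Or.inl h1
    · exact Or.inr (Or.inl h1)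
    · refine Or.inr (Or.inr (Or.inl ?_))
      intro t q'
      obtain ⟨q, hq⟩ := hd q'
      exact (h1 t q).coprime_dvd_right hq
    · exact Or.inr (Or.inr (Or.inr h1))

theorem exists_prime_order {Q : Type*} [Group Q] {q : Q} (hq : IsOfFinOrder q) {p : ℕ} (hp : p.Prime)
    (hpq : p ∣ orderOf q) : ∃ q : Q, orderOf q = p := by
  obtain ⟨c, hc⟩ := hpq
  have h0 : orderOf q ≠ 0 := hq.orderOf_pos.ne'
  have hc0 : c ≠ 0 := by
    rintro rfl
    exact h0 (by rw [hc, mul_zero])
  have hpf : Fact p.Prime := ⟨hp⟩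
  refine ⟨q ^ c, orderOf_eq_prime ?_ ?_⟩
  · rw [← pow_mul, mul_comm c p, ← hc, pow_orderOf_eq_one]
  · apply pow_ne_one_of_lt_orderOf hc0
    rw [hc]
    have h2 := hp.two_le
    have h3 := Nat.pos_of_ne_zero hc0
    nlinarith

theorem fi_comap {G G' : Type*} [Group G] [Group G'] {f : G →* G'} (hf : Function.Surjective f)
    {H : Subgroup G'} (hH : H.FiniteIndex) : (H.comap f).FiniteIndex :=
  ⟨by
    rw [Subgroup.index_comap_of_surjective _ hf]
    exact hH.index_ne_zero⟩

theorem fi_map {G G' : Type*} [Group G] [Group G'] {f : G →* G'} (hf : Function.Surjective f)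
    {H : Subgroup G} (hH : H.FiniteIndex) : (H.map f).FiniteIndex := by
  refine ⟨fun h0 => hH.index_ne_zero ?_⟩
  have h1 := H.index_map_dvd hf
  rw [h0] at h1
  exact zero_dvd_iff.1 h1

/-- a subgroup of finite index has finitely many subgroups of finite index as well -/
theorem ffi_sub {Q : Type*} [Group Q] (h : {H : Subgroup Q | H.FiniteIndex}.Finite) {B : Subgroup Q}
    (hB : B.FiniteIndex) : {H : Subgroup B | H.FiniteIndex}.Finite := by
  refine Set.Finite.of_finite_image (f := fun H : Subgroup B => H.map B.subtype) (h.subset ?_) ?_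
  · rintro _ ⟨H, hH, rfl⟩
    change (H.map B.subtype).FiniteIndex
    refine ⟨?_⟩
    have h1 : (H.map B.subtype).index = H.index * B.index := Subgroup.index_map_subtype H
    rw [h1]
    exact mul_ne_zero (hH : H.FiniteIndex).index_ne_zero hB.index_ne_zero
  · intro H _ H' _ hHH'
    exact Subgroup.map_injective B.subtype_injective hHH'

theorem ffi_quot {Q Q' : Type*} [Group Q] [Group Q'] (h : {H : Subgroup Q | H.FiniteIndex}.Finite)
    (f : Q →* Q') (hf : Function.Surjective f) : {H : Subgroup Q' | H.FiniteIndex}.Finite := by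
  refine Set.Finite.of_finite_image (f := fun H : Subgroup Q' => H.comap f) (h.subset ?_) ?_
  · rintro _ ⟨H, hH, rfl⟩
    exact fi_comap hf hH
  · intro H _ H' _ hHH'
    exact Subgroup.comap_injective hf hHH'

/-- the step for one factor -/
theorem bottom {G : Type u} {Q : Type v} [Group G] [Group Q] (φ : G →* Q) (hφ : Function.Surjective φ)
    (hRF : ResFin G) (hLF : LocFin φ.ker) (hQt : ∀ q : Q, IsOfFinOrder q) (hQfg : Group.FG Q)
    (hQ0 : {H : Subgroup Q | H.FiniteIndex}.Finite) (E : Subgroup G) [hE : E.Normal]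
    (hELF : LocFin E)
    (hgood : (∃ d F h, RT Q d F h E) ∨ ∀ p : ℕ, p.Prime → (∃ q : Q, orderOf q = p) → BP p E)
    (hC : ((cl E).map φ).FiniteIndex) : Finite Q := by
  have key : Finite ((cl E).map φ) := by
    rcases hgood with ⟨d, F, h, hRT⟩ | hbp
    · obtain ⟨ψ, hψ⟩ : ∃ ψ : cl E →* (cl E).map φ, ∀ x, (ψ x : Q) = φ x :=
        ⟨φ.subgroupMap (cl E), fun x => rfl⟩
      have hs : Function.Surjective ψ := by
        rintro ⟨q, x, hx, rfl⟩
        exact ⟨⟨x, hx⟩, Subtype.ext (hψ _)⟩
      have hk : LocFin ψ.ker := by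
        have h1 : ψ.ker ≤ φ.ker.comap (cl E).subtype := by
          intro x hx
          rw [MonoidHom.mem_ker] at hx
          rw [Subgroup.mem_comap, MonoidHom.mem_ker]
          change φ x.1 = 1
          rw [← hψ, hx]
          rfl
        exact (hLF.comap _ (cl E).subtype_injective).mono h1
      have hfg : Group.FG ((cl E).map φ) := inferInstance
      refine Pool.Agent.H89.BC.main d F h ψ hs hk ?_ hfg (ffi_sub hQ0 hC)
      intro y hy
      obtain ⟨K', hK1', hK2', hK3', hK4'⟩ := hRT y.1 (fun h => hy (Subtype.ext h))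
      obtain ⟨f, hf⟩ : ∃ f : cl E →* G ⧸ K', f = (QuotientGroup.mk' K').comp (cl E).subtype := ⟨_, rfl⟩
      have hr : ∀ x, f x ∈ E.map (QuotientGroup.mk' K') := by
        intro x
        have h1 : x.1 ∈ E ⊔ K' := mem_cl.1 x.2 K' hK1' hK2'
        obtain ⟨a, ha, b, hb, hab⟩ := Subgroup.mem_sup_of_normal_right.1 h1
        refine ⟨a, ha, ?_⟩
        rw [hf]
        change (QuotientGroup.mk a : G ⧸ K') = QuotientGroup.mk x.1
        rw [← hab, QuotientGroup.mk_mul, (QuotientGroup.eq_one_iff b).2 hb, mul_one]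
      have hfin : Finite (G ⧸ K') := Subgroup.finite_quotient_of_finiteIndex
      refine ⟨f.ker, inferInstance, inferInstance, ?_, ?_⟩
      · intro h1
        rw [MonoidHom.mem_ker, hf] at h1
        exact hK3' ((QuotientGroup.eq_one_iff y.1).1 h1)
      · refine Pool.Agent.H89.BC.tame_inj d F h
          (((QuotientGroup.kerLift f).comp (ψ.ker.map (QuotientGroup.mk' f.ker)).subtype).codRestrict
            (E.map (QuotientGroup.mk' K')) ?_) ?_ ?_
        · rintro ⟨z, x, hx, rfl⟩
          exact hr x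
        · intro a b hab
          have h2 := congrArg Subtype.val hab
          exact Subtype.ext (QuotientGroup.kerLift_injective f h2)
        · refine tame_mono ?_ d F h _ hK4'
          intro q'
          exact ⟨q'.1, by rw [Subgroup.orderOf_coe]⟩
    · have hT := torsion_of φ hLF hQt
      have hB : (E.map φ).Normal := hE.map φ hφ
      have hEQ : (cl E).map φ ≤ E.map φ := by
        rintro q ⟨r, hr, rfl⟩
        by_contra hq
        have h1 : orderOf (QuotientGroup.mk (φ r) : Q ⧸ E.map φ) ≠ 1 := by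
          intro h2
          exact hq ((QuotientGroup.eq_one_iff (φ r)).1 (orderOf_eq_one_iff.1 h2))
        obtain ⟨p, hp, hpm⟩ := Nat.exists_prime_and_dvd h1
        have hpq : p ∣ orderOf (φ r) :=
          hpm.trans (orderOf_map_dvd (QuotientGroup.mk' (E.map φ)) (φ r))
        have hm : orderOf r ≠ 0 := (hT r).orderOf_pos.ne'
        obtain ⟨a, b, hb, hab⟩ := Nat.exists_eq_pow_mul_and_not_dvd hm p hp.ne_one
        have hra : (r ^ b) ^ p ^ a = 1 := by
          rw [← pow_mul, mul_comm b, ← hab, pow_orderOf_eq_one]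
        have hrE : r ^ b ∉ E := by
          intro h4
          apply hb
          refine hpm.trans (orderOf_dvd_of_pow_eq_one ?_)
          rw [← QuotientGroup.mk_pow, QuotientGroup.eq_one_iff, ← map_pow]
          exact ⟨r ^ b, h4, rfl⟩
        obtain ⟨P, hP, hPf⟩ := (hbp p hp (exists_prime_order (hQt _) hp hpq)).exists_maxP hp hELF
        obtain ⟨K, hK1, hK2, hK3⟩ := closE hRF hT hp (vp_of_maxP hRF hE hELF hp hP hPf) hra hrE
        exact hK3 (mem_cl.1 ((cl E).pow_mem hr b) K hK1 hK2)
      have hLFQ : LocFin ((cl E).map φ) := (hELF.map φ).mono hEQ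
      have hfg : Group.FG ((cl E).map φ) := inferInstance
      obtain ⟨S, hS⟩ := (Group.fg_iff_subgroup_fg _).1 hfg
      have h3 := hLFQ S (by
        rw [← hS]
        exact Subgroup.subset_closure)
      rwa [hS] at h3
  apply Nat.finite_of_card_ne_zero
  rw [← ((cl E).map φ).card_mul_index]
  exact mul_ne_zero Nat.card_pos.ne' hC.index_ne_zero

end Pool.Agent.H15.FI
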