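import Mathlib
import Pool.Agent.H15.FI.M6

/-!
# MP_d9a994, Theorem M: the series (helper15)
-/

set_option autoImplicit false

namespace Pool.Agent.H15.FI

open Pool.Agent.H89.BC (Tame)

universe u v w

/-- one factor of the series -/
theorem step {G : Type u} {Q : Type v} [Group G] [Group Q] (φ : G →* Q) (hφ : Function.Surjective φ)
    (hLF : LocFin φ.ker) (hQt : ∀ q : Q, IsOfFinOrder q) (hQfg : Group.FG Q)
    (hQ0 : {H : Subgroup Q | H.FiniteIndex}.Finite) (A B : Subgroup G) [hA : A.Normal] [hB : B.Normal]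
    (hBLF : LocFin B)
    (hgood : (∃ d F h, ∀ K : Subgroup G, K.Normal → K.FiniteIndex → ∀ x : G, x ∉ A ⊔ K →
      ∃ (K' : Subgroup G) (_ : K'.Normal), K'.FiniteIndex ∧ x ∉ A ⊔ K' ∧
        Tame Q d F h (B.map (QuotientGroup.mk' (A ⊔ K')))) ∨
      ∀ p : ℕ, p.Prime → (∃ q : Q, orderOf q = p) → BP p (B.map (QuotientGroup.mk' A)))
    (hC : ((cl B).map φ).FiniteIndex) : ((cl A).map φ).FiniteIndex := by
  have hAQ : ((cl A).map φ).Normal := (cl_normal A).map φ hφ
  obtain ⟨φ', hφ'⟩ : ∃ φ' : G ⧸ cl A →* Q ⧸ (cl A).map φ,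
      ∀ x : G, φ' (QuotientGroup.mk x) = QuotientGroup.mk (φ x) :=
    ⟨QuotientGroup.map (cl A) ((cl A).map φ) φ (Subgroup.le_comap_map φ _), fun x => rfl⟩
  have hmk := QuotientGroup.mk'_surjective (cl A)
  have hmkQ := QuotientGroup.mk'_surjective ((cl A).map φ)
  have hE : (B.map (QuotientGroup.mk' (cl A))).Normal := hB.map _ hmk
  have hord : ∀ q' : Q ⧸ (cl A).map φ, ∃ q : Q, orderOf q' ∣ orderOf q := by
    intro q'
    obtain ⟨q, rfl⟩ := hmkQ q'
    exact ⟨q, orderOf_map_dvd _ q⟩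
  have hfin : Finite (Q ⧸ (cl A).map φ) := by
    refine bottom φ' ?_ (resFin_quot A) ?_ ?_ ?_ (ffi_quot hQ0 _ hmkQ) (B.map (QuotientGroup.mk' (cl A)))
      (hBLF.map _) ?_ ?_
    · intro q
      obtain ⟨q, rfl⟩ := QuotientGroup.mk_surjective q
      obtain ⟨g, rfl⟩ := hφ q
      exact ⟨QuotientGroup.mk g, hφ' g⟩
    · refine (hLF.map (QuotientGroup.mk' (cl A))).mono ?_
      intro x hx
      obtain ⟨x, rfl⟩ := QuotientGroup.mk_surjective x
      rw [MonoidHom.mem_ker, hφ', QuotientGroup.eq_one_iff] at hx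
      obtain ⟨y, hy, hyx⟩ := hx
      refine ⟨x * y⁻¹, ?_, ?_⟩
      · change φ (x * y⁻¹) = 1
        rw [map_mul, map_inv, hyx, mul_inv_cancel]
      · change (QuotientGroup.mk (x * y⁻¹) : G ⧸ cl A) = QuotientGroup.mk x
        rw [QuotientGroup.mk_mul, QuotientGroup.mk_inv, (QuotientGroup.eq_one_iff y).2 hy, inv_one,
          mul_one]
    · intro q
      obtain ⟨q, rfl⟩ := hmkQ q
      exact (QuotientGroup.mk' ((cl A).map φ)).isOfFinOrder (hQt q)
    · exact Group.fg_of_surjective hmkQ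
    · rcases hgood with ⟨d, F, h, hRT⟩ | hbp
      · refine Or.inl ⟨d, F, h, ?_⟩
        intro y hy
        obtain ⟨y, rfl⟩ := QuotientGroup.mk_surjective y
        have hyA : y ∉ cl A := fun h => hy ((QuotientGroup.eq_one_iff y).2 h)
        rw [mem_cl] at hyA
        push Not at hyA
        obtain ⟨K, hK1, hK2, hK3⟩ := hyA
        obtain ⟨K', hK1', hK2', hK3', hK4'⟩ := hRT K hK1 hK2 y hK3
        have hle : cl A ≤ A ⊔ K' := fun x hx => mem_cl.1 hx K' hK1' hK2'
        have hfi : (A ⊔ K').FiniteIndex := Subgroup.finiteIndex_of_le (le_sup_right : K' ≤ A ⊔ K')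
        have hn : ((A ⊔ K').map (QuotientGroup.mk' (cl A))).Normal :=
          Subgroup.Normal.map inferInstance _ hmk
        refine ⟨(A ⊔ K').map (QuotientGroup.mk' (cl A)), hn, fi_map hmk hfi, ?_, ?_⟩
        · rintro ⟨z, hz, hzy⟩
          apply hK3'
          have h2 : z⁻¹ * y ∈ A ⊔ K' := hle (QuotientGroup.eq.1 hzy)
          have h3 := (A ⊔ K').mul_mem hz h2
          rwa [mul_inv_cancel_left] at h3
        · have hT := tame_mono hord d F h _ hK4'
          obtain ⟨e, he⟩ : ∃ e : (G ⧸ cl A) ⧸ ((A ⊔ K').map (QuotientGroup.mk' (cl A))) ≃* G ⧸ (A ⊔ K'),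
              ∀ x : G, e (QuotientGroup.mk (QuotientGroup.mk x)) = QuotientGroup.mk x :=
            ⟨QuotientGroup.quotientQuotientEquivQuotient (cl A) (A ⊔ K') hle, fun x => rfl⟩
          refine Pool.Agent.H89.BC.tame_inj d F h
            ((e.toMonoidHom.comp ((B.map (QuotientGroup.mk' (cl A))).map
              (QuotientGroup.mk' ((A ⊔ K').map (QuotientGroup.mk' (cl A))))).subtype).codRestrict
              (B.map (QuotientGroup.mk' (A ⊔ K'))) ?_) ?_ hT
          · rintro ⟨_, _, ⟨b, hb, rfl⟩, rfl⟩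
            exact ⟨b, hb, (he b).symm⟩
          · intro a b hab
            have h2 := congrArg Subtype.val hab
            exact Subtype.ext (e.injective h2)
      · refine Or.inr ?_
        rintro p hp ⟨q', hq'⟩
        obtain ⟨q, hq⟩ := hord q'
        have h1 := (hbp p hp (exists_prime_order (hQt q) hp (by rw [← hq']; exact hq))).map
          (QuotientGroup.map A (cl A) (MonoidHom.id G) (le_cl A)) hp (hBLF.map _)
        rw [Subgroup.map_map] at h1
        exact h1
    · have h1 : (((cl B).map φ).map (QuotientGroup.mk' ((cl A).map φ))).FiniteIndex := fi_map hmkQ hC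
      refine Subgroup.finiteIndex_of_le (H := ((cl B).map φ).map (QuotientGroup.mk' ((cl A).map φ))) ?_
      rintro _ ⟨_, ⟨x, hx, rfl⟩, rfl⟩
      refine ⟨QuotientGroup.mk x, ?_, hφ' x⟩
      apply mem_cl.2
      intro K hK1 hK2
      have h2 := mem_cl.1 hx (K.comap (QuotientGroup.mk' (cl A))) (hK1.comap _) (fi_comap hmk hK2)
      obtain ⟨a, ha, b, hb, hab⟩ := Subgroup.mem_sup_of_normal_right.1 h2
      rw [← hab, QuotientGroup.mk_mul]
      exact Subgroup.mul_mem_sup ⟨a, ha, rfl⟩ hb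
  exact Subgroup.finiteIndex_of_finite_quotient

theorem cl_ker {G : Type u} {Q : Type v} [Group G] [Group Q] (φ : G →* Q) (hφ : Function.Surjective φ)
    (hQ0 : {H : Subgroup Q | H.FiniteIndex}.Finite) : ((cl φ.ker).map φ).FiniteIndex := by
  have hfin : Finite {H : Subgroup Q // H.FiniteIndex} := hQ0
  have h1 : (⨅ H : {H : Subgroup Q // H.FiniteIndex}, H.1).FiniteIndex :=
    Subgroup.finiteIndex_iInf fun H => H.2
  refine Subgroup.finiteIndex_of_le (H := ⨅ H : {H : Subgroup Q // H.FiniteIndex}, H.1) ?_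
  intro q hq
  obtain ⟨g, rfl⟩ := hφ q
  refine ⟨g, mem_cl.2 ?_, rfl⟩
  intro K hK1 hK2
  obtain ⟨k, hk, hkg⟩ := (Subgroup.mem_iInf.1 hq) ⟨K.map φ, fi_map hφ hK2⟩
  have h2 : g = (g * k⁻¹) * k := by group
  rw [h2]
  refine Subgroup.mul_mem_sup ?_ hk
  rw [MonoidHom.mem_ker, map_mul, map_inv, hkg, mul_inv_cancel]

theorem cl_bot {G : Type u} [Group G] (hRF : ResFin G) : cl (⊥ : Subgroup G) = ⊥ := by
  rw [eq_bot_iff]
  intro x hx
  by_contra hx1
  obtain ⟨K, hK1, hK2, hK3⟩ := avoid hRF {x} (by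
    simpa using fun h : (1 : G) = x => hx1 (Subgroup.mem_bot.2 h.symm))
  have h3 := mem_cl.1 hx K hK1 hK2
  rw [bot_sup_eq] at h3
  exact hK3 x (by simp) h3

/-- `A` has a finite series of normal subgroups of `G` with factors of the two types -/
def HasSeries (Q : Type v) [Group Q] {G : Type u} [Group G] (A : Subgroup G) : Prop :=
  ∃ (k : ℕ) (N : ℕ → Subgroup G) (_ : ∀ i, (N i).Normal), N 0 = ⊥ ∧ N k = A ∧ (∀ i < k, N i ≤ N (i + 1)) ∧
    ∀ i < k,
      (∃ d F h, ∀ K : Subgroup G, K.Normal → K.FiniteIndex → ∀ x : G, x ∉ N i ⊔ K →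
        ∃ (K' : Subgroup G) (_ : K'.Normal), K'.FiniteIndex ∧ x ∉ N i ⊔ K' ∧
          Tame Q d F h ((N (i + 1)).map (QuotientGroup.mk' (N i ⊔ K')))) ∨
      ∀ p : ℕ, p.Prime → (∃ q : Q, orderOf q = p) →
        ∃ P : Subgroup (G ⧸ N i), IsMaxP p ((N (i + 1)).map (QuotientGroup.mk' (N i))) P ∧ Finite P

/-- the theorem for a series from `1` to a subgroup of the kernel with large closure -/
theorem series' {G : Type u} {Q : Type v} [Group G] [Group Q] (φ : G →* Q) (hφ : Function.Surjective φ)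
    (hRF : ResFin G) (hLF : LocFin φ.ker) (hQt : ∀ q : Q, IsOfFinOrder q) (hQfg : Group.FG Q)
    (hQ0 : {H : Subgroup Q | H.FiniteIndex}.Finite) (k : ℕ) (N : ℕ → Subgroup G) [hN : ∀ i, (N i).Normal]
    (h0 : N 0 = ⊥) (hk : N k ≤ φ.ker) (hfi : ((cl (N k)).map φ).FiniteIndex)
    (hmono : ∀ i < k, N i ≤ N (i + 1))
    (hfac : ∀ i < k, (∃ d F h, ∀ K : Subgroup G, K.Normal → K.FiniteIndex → ∀ x : G, x ∉ N i ⊔ K →
        ∃ (K' : Subgroup G) (_ : K'.Normal), K'.FiniteIndex ∧ x ∉ N i ⊔ K' ∧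
          Tame Q d F h ((N (i + 1)).map (QuotientGroup.mk' (N i ⊔ K')))) ∨
      ∀ p : ℕ, p.Prime → (∃ q : Q, orderOf q = p) →
        ∃ P : Subgroup (G ⧸ N i), IsMaxP p ((N (i + 1)).map (QuotientGroup.mk' (N i))) P ∧ Finite P) :
    Finite Q := by
  have hle : ∀ j, j ≤ k → N (k - j) ≤ φ.ker := by
    intro j
    induction j with
    | zero =>
      intro _
      rw [Nat.sub_zero]
      exact hk
    | succ j ih =>
      intro hj
      refine le_trans ?_ (ih (by omega))
      have h1 := hmono (k - (j + 1)) (by omega)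
      have h2 : k - (j + 1) + 1 = k - j := by omega
      rwa [h2] at h1
  have hind : ∀ j, j ≤ k → ((cl (N (k - j))).map φ).FiniteIndex := by
    intro j
    induction j with
    | zero =>
      intro _
      rw [Nat.sub_zero]
      exact hfi
    | succ j ih =>
      intro hj
      have h1 := ih (by omega)
      have h2 : k - (j + 1) + 1 = k - j := by omega
      have hB : LocFin (N (k - j)) := hLF.mono (hle j (by omega))
      refine step φ hφ hLF hQt hQfg hQ0 (N (k - (j + 1))) (N (k - j)) hB ?_ h1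
      have h3 := hfac (k - (j + 1)) (by omega)
      rw [h2] at h3
      rcases h3 with h3 | h3
      · exact Or.inl h3
      · refine Or.inr ?_
        intro p hp hpQ
        obtain ⟨P, hP, hPf⟩ := h3 p hp hpQ
        exact BP.of_maxP hp (hB.map _) hP hPf
  have h1 := hind k le_rfl
  rw [Nat.sub_self, h0, cl_bot hRF, Subgroup.map_bot] at h1
  apply Nat.finite_of_card_ne_zero
  rw [← Subgroup.index_bot]
  exact h1.index_ne_zero

/-- the theorem for a series -/
theorem series {G : Type u} {Q : Type v} [Group G] [Group Q] (φ : G →* Q) (hφ : Function.Surjective φ)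
    (hRF : ResFin G) (hLF : LocFin φ.ker) (hQt : ∀ q : Q, IsOfFinOrder q) (hQfg : Group.FG Q)
    (hQ0 : {H : Subgroup Q | H.FiniteIndex}.Finite) (k : ℕ) (N : ℕ → Subgroup G) [hN : ∀ i, (N i).Normal]
    (h0 : N 0 = ⊥) (hk : N k = φ.ker) (hmono : ∀ i < k, N i ≤ N (i + 1))
    (hfac : ∀ i < k, (∃ d F h, ∀ K : Subgroup G, K.Normal → K.FiniteIndex → ∀ x : G, x ∉ N i ⊔ K →
        ∃ (K' : Subgroup G) (_ : K'.Normal), K'.FiniteIndex ∧ x ∉ N i ⊔ K' ∧
          Tame Q d F h ((N (i + 1)).map (QuotientGroup.mk' (N i ⊔ K')))) ∨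
      ∀ p : ℕ, p.Prime → (∃ q : Q, orderOf q = p) →
        ∃ P : Subgroup (G ⧸ N i), IsMaxP p ((N (i + 1)).map (QuotientGroup.mk' (N i))) P ∧ Finite P) :
    Finite Q := by
  refine series' φ hφ hRF hLF hQt hQfg hQ0 k N h0 hk.le ?_ hmono hfac
  rw [hk]
  exact cl_ker φ hφ hQ0

end Pool.Agent.H15.FI
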