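import Mathlib
import Pool.Agent.H15.FI.M7
import Pool.Agent.H15.FI.D

/-!
# MP_d9a994, Theorem L: directed unions of kernels with series and LEF groups (helper15)
-/

set_option autoImplicit false

namespace Pool.Agent.H15.FI

universe u v

theorem dir {G : Type*} [Group G] {𝒜 : Set (Subgroup G)} (hne : 𝒜.Nonempty)
    (hdir : ∀ A ∈ 𝒜, ∀ A' ∈ 𝒜, ∃ A'' ∈ 𝒜, A ≤ A'' ∧ A' ≤ A'') {α : Type*} (P : α → Subgroup G → Prop)
    (hP : ∀ a A A', A ≤ A' → P a A → P a A') (T : Finset α) (hT : ∀ a ∈ T, ∃ A ∈ 𝒜, P a A) :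
    ∃ A ∈ 𝒜, ∀ a ∈ T, P a A := by
  classical
  induction T using Finset.induction_on with
  | empty =>
    obtain ⟨A, hA⟩ := hne
    exact ⟨A, hA, fun a ha => absurd ha (Finset.notMem_empty a)⟩
  | insert a T _ ih =>
    obtain ⟨A, hA, hA2⟩ := ih fun b hb => hT b (Finset.mem_insert_of_mem hb)
    obtain ⟨A', hA', hA2'⟩ := hT a (Finset.mem_insert_self a T)
    obtain ⟨A'', hA'', h1, h2⟩ := hdir A hA A' hA'
    refine ⟨A'', hA'', ?_⟩
    intro b hb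
    rw [Finset.mem_insert] at hb
    rcases hb with rfl | hb
    · exact hP _ _ _ h2 hA2'
    · exact hP _ _ _ h1 (hA2 b hb)

theorem cl_mono {G : Type*} [Group G] {A B : Subgroup G} (h : A ≤ B) : cl A ≤ cl B :=
  fun _ hx => mem_cl.2 fun K hK1 hK2 => sup_le_sup_right h K (mem_cl.1 hx K hK1 hK2)

/-- the union of the closures -/
theorem exists_U {G : Type*} [Group G] {𝒜 : Set (Subgroup G)} (hne : 𝒜.Nonempty) (hn : ∀ A ∈ 𝒜, A.Normal)
    (hdir : ∀ A ∈ 𝒜, ∀ A' ∈ 𝒜, ∃ A'' ∈ 𝒜, A ≤ A'' ∧ A' ≤ A'') :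
    ∃ U : Subgroup G, U.Normal ∧ ∀ x, x ∈ U ↔ ∃ A ∈ 𝒜, x ∈ cl A := by
  refine ⟨{ carrier := {x | ∃ A ∈ 𝒜, x ∈ cl A}, mul_mem' := ?_, one_mem' := ?_, inv_mem' := ?_ }, ⟨?_⟩,
    fun x => Iff.rfl⟩
  · rintro x y ⟨A, hA, hx⟩ ⟨A', hA', hy⟩
    obtain ⟨A'', hA'', h1, h2⟩ := hdir A hA A' hA'
    exact ⟨A'', hA'', (cl A'').mul_mem (cl_mono h1 hx) (cl_mono h2 hy)⟩
  · obtain ⟨A, hA⟩ := hne
    exact ⟨A, hA, (cl A).one_mem⟩
  · rintro x ⟨A, hA, hx⟩
    exact ⟨A, hA, (cl A).inv_mem hx⟩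
  · rintro x ⟨A, hA, hx⟩ g
    have := hn A hA
    exact ⟨A, hA, (cl_normal A).conj_mem x hx g⟩

theorem avoidE {G : Type*} [Group G] {A : Subgroup G} (T : Finset G) (hT : ∀ x ∈ T, x ∉ cl A) :
    ∃ K : Subgroup G, K.Normal ∧ K.FiniteIndex ∧ ∀ x ∈ T, x ∉ A ⊔ K := by
  classical
  induction T using Finset.induction_on with
  | empty => exact ⟨⊤, inferInstance, inferInstance, fun x hx => absurd hx (Finset.notMem_empty x)⟩
  | insert a T _ ih =>
    obtain ⟨K, hK1, hK2, hK3⟩ := ih fun x hx => hT x (Finset.mem_insert_of_mem hx)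
    have ha := hT a (Finset.mem_insert_self a T)
    rw [mem_cl] at ha
    push Not at ha
    obtain ⟨K', hK1', hK2', hK3'⟩ := ha
    refine ⟨K ⊓ K', inferInstance, inferInstance, ?_⟩
    intro x hx
    rw [Finset.mem_insert] at hx
    rcases hx with rfl | hx
    · exact fun h => hK3' (sup_le_sup_left inf_le_right A h)
    · exact fun h => hK3 x hx (sup_le_sup_left inf_le_left A h)

/-- directed unions of closed normal subgroups have LEF quotients -/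
theorem lef_union {G Q : Type} [Group G] [Group Q] (φ : G →* Q) (hs : Function.Surjective φ)
    {𝒜 : Set (Subgroup G)} (hne : 𝒜.Nonempty) (hn : ∀ A ∈ 𝒜, A.Normal)
    (hdir : ∀ A ∈ 𝒜, ∀ A' ∈ 𝒜, ∃ A'' ∈ 𝒜, A ≤ A'' ∧ A' ≤ A'')
    (hker : ∀ x, x ∈ φ.ker ↔ ∃ A ∈ 𝒜, x ∈ cl A) : IsLEF Q := by
  classical
  intro S
  obtain ⟨σ, hσ⟩ : ∃ σ : Q → G, ∀ q, φ (σ q) = q := ⟨fun q => (hs q).choose, fun q => (hs q).choose_spec⟩
  obtain ⟨A, hA, hA2⟩ := dir hne hdir (fun (x : G) A => x ∈ cl A) (fun _ _ _ h hx => cl_mono h hx)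
    ((S ×ˢ S).image fun st => (σ (st.1 * st.2))⁻¹ * (σ st.1 * σ st.2)) (by
      intro x hx
      rw [Finset.mem_image] at hx
      obtain ⟨st, _, rfl⟩ := hx
      rw [← hker, MonoidHom.mem_ker, map_mul, map_inv, map_mul, hσ, hσ, hσ, inv_mul_cancel])
  have hAn := hn A hA
  obtain ⟨K, hK1, hK2, hK3⟩ := avoidE (A := A)
    (((S ×ˢ S).filter fun st => st.1 ≠ st.2).image fun st => (σ st.1)⁻¹ * σ st.2) (by
      intro x hx hxA
      rw [Finset.mem_image] at hx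
      obtain ⟨st, h1, rfl⟩ := hx
      rw [Finset.mem_filter] at h1
      have h2 := (hker _).2 ⟨A, hA, hxA⟩
      rw [MonoidHom.mem_ker, map_mul, map_inv, hσ, hσ] at h2
      exact h1.2 (inv_mul_eq_one.1 h2))
  have hfi : (A ⊔ K).FiniteIndex := Subgroup.finiteIndex_of_le (le_sup_right : K ≤ A ⊔ K)
  refine ⟨G ⧸ (A ⊔ K), inferInstance, Subgroup.finite_quotient_of_finiteIndex,
    fun q => QuotientGroup.mk (σ q), ?_, ?_⟩
  · intro s hs t ht hst
    by_contra hne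
    refine hK3 ((σ s)⁻¹ * σ t) ?_ (QuotientGroup.eq.1 hst)
    rw [Finset.mem_image]
    exact ⟨(s, t), by simpa [hne] using And.intro hs ht, rfl⟩
  · intro s hs t ht
    rw [← QuotientGroup.mk_mul, QuotientGroup.eq]
    refine mem_cl.1 (hA2 _ ?_) K hK1 hK2
    rw [Finset.mem_image]
    exact ⟨(s, t), by simp [hs, ht], rfl⟩

/-- residually finite groups are LEF -/
theorem lef_of_resFin {Q : Type} [Group Q] (h : ResFin Q) : IsLEF Q := by
  refine lef_union (MonoidHom.id Q) Function.surjective_id (𝒜 := {⊥}) ⟨⊥, rfl⟩ ?_ ?_ ?_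
  · rintro A rfl
    infer_instance
  · rintro A rfl A' rfl
    exact ⟨⊥, rfl, le_rfl, le_rfl⟩
  · intro x
    constructor
    · intro hx
      rw [MonoidHom.mem_ker, MonoidHom.id_apply] at hx
      rw [hx]
      exact ⟨⊥, rfl, (cl ⊥).one_mem⟩
    · rintro ⟨A, rfl, hx⟩
      rw [cl_bot h, Subgroup.mem_bot] at hx
      rw [hx]
      exact φ_one
where φ_one : (1 : Q) ∈ (MonoidHom.id Q).ker := (MonoidHom.id Q).ker.one_mem

end Pool.Agent.H15.FI
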