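import Mathlib
import Pool.Agent.H15.FI.L1

/-!
# MP_d9a994, Theorem L: the equivalence (helper15)
-/

set_option autoImplicit false

namespace Pool.Agent.H15.FI

theorem lef_quotient {G Q : Type} [Group G] [Group Q] (φ : G →* Q) (hs : Function.Surjective φ)
    (hRF : ResFin G) (hLF : LocFin φ.ker) (hQfg : Group.FG Q) (hQt : ∀ q : Q, IsOfFinOrder q)
    (hinf : Infinite Q) (𝒜 : Set (Subgroup G)) (hn : ∀ A ∈ 𝒜, A.Normal) (hle : ∀ A ∈ 𝒜, A ≤ φ.ker)
    (hser : ∀ A ∈ 𝒜, HasSeries Q A) (hdir : ∀ A ∈ 𝒜, ∀ A' ∈ 𝒜, ∃ A'' ∈ 𝒜, A ≤ A'' ∧ A' ≤ A'')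
    (hcov : ∀ x ∈ φ.ker, ∃ A ∈ 𝒜, x ∈ A) :
    ∃ (M : Subgroup Q) (_ : M.Normal), Infinite (Q ⧸ M) ∧ IsLEF (Q ⧸ M) := by
  have hne : 𝒜.Nonempty := by
    obtain ⟨A, hA, _⟩ := hcov 1 φ.ker.one_mem
    exact ⟨A, hA⟩
  by_cases hffi : {H : Subgroup Q | H.FiniteIndex}.Finite
  · obtain ⟨U, hUn, hU⟩ := exists_U hne hn hdir
    have hM : (U.map φ).Normal := hUn.map φ hs
    refine ⟨U.map φ, hM, ?_, ?_⟩
    · by_contra hfin
      rw [not_infinite_iff_finite] at hfin
      have hfi : (U.map φ).FiniteIndex := Subgroup.finiteIndex_of_finite_quotient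
      have hfg : Group.FG (U.map φ) := inferInstance
      obtain ⟨S, hS⟩ := (Group.fg_iff_subgroup_fg _).1 hfg
      obtain ⟨A, hA, hA2⟩ := dir hne hdir (fun (q : Q) A => q ∈ (cl A).map φ)
        (fun _ _ _ h hx => Subgroup.map_mono (cl_mono h) hx) S (by
          intro q hq
          have h1 : q ∈ U.map φ := by
            rw [← hS]
            exact Subgroup.subset_closure hq
          obtain ⟨x, hx, hxq⟩ := h1
          obtain ⟨A, hA, hxA⟩ := (hU x).1 hx
          exact ⟨A, hA, x, hxA, hxq⟩)
      have h1 : U.map φ ≤ (cl A).map φ := by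
        rw [← hS, Subgroup.closure_le]
        exact hA2
      have h2 : ((cl A).map φ).FiniteIndex := Subgroup.finiteIndex_of_le h1
      obtain ⟨k, N, hN, h0, hk, hmono, hfac⟩ := hser A hA
      have h3 : Finite Q := series' φ hs hRF hLF hQt hQfg hffi k N h0 (by rw [hk]; exact hle A hA)
        (by rw [hk]; exact h2) hmono hfac
      exact not_finite Q
    · refine lef_union ((QuotientGroup.mk' (U.map φ)).comp φ)
        ((QuotientGroup.mk'_surjective _).comp hs) hne hn hdir ?_
      intro x
      rw [← hU, MonoidHom.mem_ker]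
      change (QuotientGroup.mk (φ x) : Q ⧸ U.map φ) = 1 ↔ x ∈ U
      rw [QuotientGroup.eq_one_iff]
      constructor
      · rintro ⟨u, hu, hux⟩
        have h1 : u⁻¹ * x ∈ φ.ker := by
          rw [MonoidHom.mem_ker, map_mul, map_inv, hux, inv_mul_cancel]
        obtain ⟨A, hA, hxA⟩ := hcov _ h1
        have h2 : u⁻¹ * x ∈ U := (hU _).2 ⟨A, hA, le_cl A hxA⟩
        have h3 := U.mul_mem hu h2
        rwa [mul_inv_cancel_left] at h3
      · intro hx
        exact ⟨x, hx, rfl⟩
  · obtain ⟨R, hR⟩ : ∃ R : Subgroup Q, R = ⨅ H : {H : Subgroup Q // H.FiniteIndex}, H.1.normalCore :=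
      ⟨_, rfl⟩
    have hRn : R.Normal := by
      rw [hR]
      exact Subgroup.normal_iInf_normal fun H => inferInstance
    have hRle : ∀ H : Subgroup Q, H.FiniteIndex → R ≤ H := by
      intro H hH
      rw [hR]
      exact (iInf_le (fun H : {H : Subgroup Q // H.FiniteIndex} => H.1.normalCore) ⟨H, hH⟩).trans
        H.normalCore_le
    have hmk := QuotientGroup.mk'_surjective R
    refine ⟨R, hRn, ?_, lef_of_resFin ?_⟩
    · by_contra hfin
      rw [not_infinite_iff_finite] at hfin
      apply hffi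
      refine Set.Finite.of_finite_image (f := fun H : Subgroup Q => H.map (QuotientGroup.mk' R))
        (Set.toFinite _) ?_
      intro H hH H' hH' hHH'
      have h1 : ∀ H : Subgroup Q, H.FiniteIndex → (H.map (QuotientGroup.mk' R)).comap
          (QuotientGroup.mk' R) = H := by
        intro H hH
        apply Subgroup.comap_map_eq_self
        rw [QuotientGroup.ker_mk']
        exact hRle H hH
      rw [← h1 H hH, ← h1 H' hH']
      exact congrArg _ hHH'
    · intro g hg
      obtain ⟨q, rfl⟩ := hmk g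
      have h1 : q ∉ R := fun h => hg ((QuotientGroup.eq_one_iff q).2 h)
      have h2 : ∃ H : Subgroup Q, H.FiniteIndex ∧ q ∉ H.normalCore := by
        by_contra hcon
        push Not at hcon
        apply h1
        rw [hR, Subgroup.mem_iInf]
        exact fun H => hcon H.1 H.2
      obtain ⟨H, hH, hqH⟩ := h2
      refine ⟨H.normalCore.map (QuotientGroup.mk' R), fi_map hmk inferInstance, ?_⟩
      rintro ⟨y, hy, hyq⟩
      apply hqH
      have h3 : y⁻¹ * q ∈ R := QuotientGroup.eq.1 hyq
      have h4 : y⁻¹ * q ∈ H.normalCore := hRle _ inferInstance h3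
      have h5 := H.normalCore.mul_mem hy h4
      rwa [mul_inv_cancel_left] at h5

theorem countable_of_fg {Q : Type} [Group Q] (h : Group.FG Q) : Countable Q := by
  obtain ⟨n, S, _, hS⟩ := Group.fg_iff'.1 h
  have h1 : Function.Surjective (FreeGroup.lift (fun s : S => (s : Q))) := by
    rw [← MonoidHom.range_eq_top, FreeGroup.range_lift_eq_closure, ← hS]
    congr 1
    ext x
    simp
  have h2 : Countable (FreeGroup S) := by
    have h3 : Function.Surjective (FreeGroup.mk : List (S × Bool) → FreeGroup S) := Quot.mk_surjective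
    exact h3.countable
  exact h1.countable

theorem finite_sup {G : Type*} [Group G] {E E' : Subgroup G} (hE : E.Normal) (h1 : Finite E)
    (h2 : Finite E') : Finite (E ⊔ E' : Subgroup G) := by
  have h3 : ((E ⊔ E' : Subgroup G) : Set G).Finite := by
    rw [Subgroup.normal_mul]
    exact (Set.toFinite (E : Set G)).mul (Set.toFinite (E' : Set G))
  exact h3.to_subtype

theorem hasSeries_of_finite {Q : Type*} [Group Q] {G : Type*} [Group G] {E : Subgroup G} (hE : E.Normal)
    (hf : Finite E) : HasSeries Q E := by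
  refine ⟨1, fun i => match i with
    | 0 => ⊥
    | _ + 1 => E, ?_, rfl, rfl, ?_, ?_⟩
  · intro i
    cases i with
    | zero => exact (inferInstance : (⊥ : Subgroup G).Normal)
    | succ i => exact hE
  · intro i hi
    obtain rfl : i = 0 := by omega
    exact bot_le
  · intro i hi
    obtain rfl : i = 0 := by omega
    refine Or.inr ?_
    intro p hp _
    have hpf : Fact p.Prime := ⟨hp⟩
    exact maxP_of_finite (finite_map _ E)

end Pool.Agent.H15.FI
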